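import Mathlib

/-!
# Translation operators on bounded functions, and the near part
-/

set_option autoImplicit false

open Filter Topology Set
open scoped ENNReal

namespace Pool.Agent.Pab2f70

/-- bounded real functions on the line -/
abbrev E : Type := lp (fun _ : ℝ => ℝ) ∞

lemma norm_apply_le (ψ : E) (x : ℝ) : |ψ x| ≤ ‖ψ‖ := lp.norm_apply_le_norm (by simp) ψ x

lemma norm_le_of {ψ : E} {C : ℝ} (hC : 0 ≤ C) (h : ∀ x, |ψ x| ≤ C) : ‖ψ‖ ≤ C :=
  lp.norm_le_of_forall_le hC h

/-- element of `E` from a bounded function -/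
noncomputable def mk (f : ℝ → ℝ) (C : ℝ) (h : ∀ x, |f x| ≤ C) : E :=
  ⟨f, memℓp_infty ⟨C, by rintro _ ⟨x, rfl⟩; exact h x⟩⟩

@[simp] lemma mk_apply (f : ℝ → ℝ) (C : ℝ) (h : ∀ x, |f x| ≤ C) (x : ℝ) : (mk f C h) x = f x := rfl

/-- Left translation by `t`. -/
noncomputable def T (t : ℝ) : E →L[ℝ] E :=
  LinearMap.mkContinuous
    { toFun := fun ψ => mk (fun x => ψ (x + t)) ‖ψ‖ (fun x => norm_apply_le ψ _)
      map_add' := by
        intro f g
        apply lp.ext
        funext x
        simp
      map_smul' := by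
        intro c f
        apply lp.ext
        funext x
        simp } 1 (by
    intro ψ
    rw [one_mul]
    exact norm_le_of (norm_nonneg _) (fun x => norm_apply_le ψ _))

@[simp] lemma T_apply (t : ℝ) (ψ : E) (x : ℝ) : (T t ψ) x = ψ (x + t) := rfl

lemma norm_T_le (t : ℝ) : ‖T t‖ ≤ 1 := LinearMap.mkContinuous_norm_le _ zero_le_one _

lemma T_mul (s t : ℝ) : T s * T t = T (s + t) := by
  ext ψ x
  simp [add_assoc]

lemma T_zero : T 0 = 1 := by
  ext ψ x
  simp

lemma T_comm (s t : ℝ) : Commute (T s) (T t) := by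
  unfold Commute SemiconjBy
  rw [T_mul, T_mul, add_comm]

lemma T_pow (t : ℝ) (n : ℕ) : T t ^ n = T (n * t) := by
  induction n with
  | zero => simp [T_zero]
  | succ n ih =>
    rw [pow_succ, ih, T_mul]
    congr 1
    push_cast
    ring

/-- Restriction to `[a, ∞)`. -/
noncomputable def chi (a : ℝ) : E →L[ℝ] E :=
  LinearMap.mkContinuous
    { toFun := fun ψ => mk (fun x => if a ≤ x then ψ x else 0) ‖ψ‖ (fun x => by
        split_ifs
        · exact norm_apply_le ψ _
        · simp)
      map_add' := by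
        intro f g
        apply lp.ext
        funext x
        simp only [mk_apply, lp.coeFn_add, Pi.add_apply]
        split_ifs <;> simp
      map_smul' := by
        intro c f
        apply lp.ext
        funext x
        simp only [mk_apply, lp.coeFn_smul, Pi.smul_apply, RingHom.id_apply]
        split_ifs <;> simp } 1 (by
    intro ψ
    rw [one_mul]
    refine norm_le_of (norm_nonneg _) (fun x => ?_)
    simp only [LinearMap.coe_mk, AddHom.coe_mk, mk_apply]
    split_ifs
    · exact norm_apply_le ψ _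
    · simp)

lemma chi_apply (a : ℝ) (ψ : E) (x : ℝ) : (chi a ψ) x = if a ≤ x then ψ x else 0 := rfl

lemma norm_chi_le (a : ℝ) : ‖chi a‖ ≤ 1 := LinearMap.mkContinuous_norm_le _ zero_le_one _

/-- evaluation -/
noncomputable def ev (x : ℝ) : E →L[ℝ] ℝ :=
  LinearMap.mkContinuous
    { toFun := fun ψ => ψ x
      map_add' := by intro f g; simp
      map_smul' := by intro c f; simp } 1 (by
    intro ψ
    rw [one_mul]
    exact norm_apply_le ψ x)

@[simp] lemma ev_apply (x : ℝ) (ψ : E) : ev x ψ = ψ x := rfl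

/-- coefficients of the near part -/
noncomputable def c (k : ℕ) : ℝ := (1 / 32) * (1 / 2) ^ k

/-- shifts of the near part -/
noncomputable def h (k : ℕ) : ℝ := (1 / 2) ^ (k + 1)

lemma c_pos (k : ℕ) : 0 < c k := by unfold c; positivity

lemma h_pos (k : ℕ) : 0 < h k := by unfold h; positivity

lemma h_le (k : ℕ) : h k ≤ 1 / 2 := by
  unfold h
  rw [pow_succ]
  have : (1 / 2 : ℝ) ^ k ≤ 1 := pow_le_one₀ (by norm_num) (by norm_num)
  linarith

lemma h_antitone {j k : ℕ} (hjk : j ≤ k) : h k ≤ h j := by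
  unfold h
  exact pow_le_pow_of_le_one (by norm_num) (by norm_num) (by omega)

lemma hasSum_c_tail (k₀ : ℕ) : HasSum (fun k => c (k + k₀)) ((1 / 16) * (1 / 2) ^ k₀) := by
  have h1 := (hasSum_geometric_two).mul_left ((1 / 32) * (1 / 2 : ℝ) ^ k₀)
  rw [show (1 / 32) * (1 / 2 : ℝ) ^ k₀ * 2 = (1 / 16) * (1 / 2) ^ k₀ by ring] at h1
  refine h1.congr_fun (fun k => ?_)
  unfold c
  rw [pow_add]
  ring

lemma summable_c : Summable c := by simpa using (hasSum_c_tail 0).summable

lemma summable_term (k₀ : ℕ) : Summable fun k => c (k + k₀) • T (h (k + k₀)) := by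
  refine Summable.of_norm_bounded (hasSum_c_tail k₀).summable (fun k => ?_)
  rw [norm_smul, Real.norm_eq_abs, abs_of_pos (c_pos _)]
  have := norm_T_le (h (k + k₀))
  have := c_pos (k + k₀)
  nlinarith

/-- the tail of the near part -/
noncomputable def tail (k₀ : ℕ) : E →L[ℝ] E := ∑' k, c (k + k₀) • T (h (k + k₀))

/-- the near part -/
noncomputable def L : E →L[ℝ] E := tail 0

/-- the head of the near part -/
noncomputable def head (k₀ : ℕ) : E →L[ℝ] E := ∑ k ∈ Finset.range k₀, c k • T (h k)

lemma L_eq (k₀ : ℕ) : L = head k₀ + tail k₀ := by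
  unfold L head tail
  have := (summable_term 0).sum_add_tsum_nat_add k₀
  simpa using this.symm

lemma tail_apply (k₀ : ℕ) (ψ : E) (x : ℝ) :
    HasSum (fun k => c (k + k₀) * ψ (x + h (k + k₀))) ((tail k₀ ψ) x) := by
  have h1 := (summable_term k₀).hasSum
  have h2 := h1.mapL (ContinuousLinearMap.apply ℝ E ψ)
  have h3 := h2.mapL (ev x)
  unfold tail
  simpa using h3

lemma comm_smul {P Q : E →L[ℝ] E} (hPQ : Commute P Q) (r : ℝ) : Commute P (r • Q) := by
  show P * (r • Q) = (r • Q) * P
  ext1 ψ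
  show P (r • Q ψ) = r • Q (P ψ)
  rw [map_smul]
  congr 1
  exact DFunLike.congr_fun hPQ.eq ψ

lemma T_comm_tail (t : ℝ) (k₀ : ℕ) : Commute (T t) (tail k₀) := by
  unfold tail
  exact Commute.tsum_right _ (fun k => comm_smul (T_comm t _) _)

lemma T_comm_head (t : ℝ) (k₀ : ℕ) : Commute (T t) (head k₀) := by
  unfold head
  exact Commute.sum_right _ _ _ (fun k _ => comm_smul (T_comm t _) _)

/-- an operator commuting with all translations commutes with the tail -/
lemma comm_tail {P : E →L[ℝ] E} (hP : ∀ t, Commute (T t) P) (k₀ : ℕ) : Commute P (tail k₀) := by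
  unfold tail
  exact Commute.tsum_right _ (fun k => comm_smul (hP _).symm _)

end Pool.Agent.Pab2f70
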