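import Mathlib
import Pool.Agent.Lib.Pab2f70.Ops

/-!
# Forward operators, weighted bounds and quasinilpotency
-/

set_option autoImplicit false

open Filter Topology Set
open scoped ENNReal

namespace Pool.Agent.Pab2f70

/-- An admissible exponent: nonnegative and superadditive on `[0, ∞)`. -/
structure IsW (W : ℝ → ℝ) : Prop where
  nn : ∀ x, 0 ≤ x → 0 ≤ W x
  sa : ∀ x y, 0 ≤ x → 0 ≤ y → W x + W y ≤ W (x + y)

lemma IsW.mono {W : ℝ → ℝ} (hW : IsW W) {x y : ℝ} (hx : 0 ≤ x) (hxy : x ≤ y) : W x ≤ W y := by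
  have h1 := hW.sa x (y - x) hx (by linarith)
  have h2 := hW.nn (y - x) (by linarith)
  rw [add_sub_cancel] at h1
  linarith

lemma IsW.zero {W : ℝ → ℝ} (hW : IsW W) : W 0 = 0 := by
  have h1 := hW.sa 0 0 le_rfl le_rfl
  have h2 := hW.nn 0 le_rfl
  rw [add_zero] at h1
  linarith

/-- Weighted bound. -/
def WB (W : ℝ → ℝ) (P : E →L[ℝ] E) (R : ℝ) : Prop :=
  ∀ (ψ : E) (a : ℝ), 0 ≤ a → (∀ x, 0 ≤ x → |ψ x| ≤ a * Real.exp (-W x)) →
    ∀ x, 0 ≤ x → |(P ψ) x| ≤ R * a * Real.exp (-W x)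

/-- `P` maps functions vanishing on `[y, ∞)` to functions vanishing on `[y - d, ∞)`. -/
def Nil (d : ℝ) (P : E →L[ℝ] E) : Prop :=
  ∀ (ψ : E) (y : ℝ), (∀ x, y ≤ x → ψ x = 0) → ∀ x, y - d ≤ x → (P ψ) x = 0

lemma Nil.mono {d d' : ℝ} (hd : d' ≤ d) {P : E →L[ℝ] E} (h : Nil d P) : Nil d' P :=
  fun ψ y hψ x hx => h ψ y hψ x (by linarith)

lemma Nil.add {d : ℝ} {P Q : E →L[ℝ] E} (hP : Nil d P) (hQ : Nil d Q) : Nil d (P + Q) := by
  intro ψ y hψ x hx
  show (P ψ + Q ψ) x = 0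
  rw [lp.coeFn_add, Pi.add_apply, hP ψ y hψ x hx, hQ ψ y hψ x hx, add_zero]

lemma Nil.smul {d : ℝ} {P : E →L[ℝ] E} (hP : Nil d P) (r : ℝ) : Nil d (r • P) := by
  intro ψ y hψ x hx
  show (r • P ψ) x = 0
  rw [lp.coeFn_smul, Pi.smul_apply, hP ψ y hψ x hx, smul_zero]

lemma Nil.zero (d : ℝ) : Nil d 0 := by
  intro ψ y _ x _
  rfl

lemma Nil.sum {d : ℝ} {ι : Type*} (s : Finset ι) {P : ι → E →L[ℝ] E}
    (h : ∀ i ∈ s, Nil d (P i)) : Nil d (∑ i ∈ s, P i) := by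
  classical
  induction s using Finset.induction_on with
  | empty => simpa using Nil.zero d
  | insert a s ha ih =>
    rw [Finset.sum_insert ha]
    exact (h a (Finset.mem_insert_self a s)).add
      (ih (fun i hi => h i (Finset.mem_insert_of_mem hi)))

lemma Nil.mul {d d' : ℝ} {P Q : E →L[ℝ] E} (hP : Nil d P) (hQ : Nil d' Q) :
    Nil (d + d') (P * Q) := by
  intro ψ y hψ x hx
  exact hP (Q ψ) (y - d') (fun z hz => hQ ψ y hψ z hz) x (by linarith)

lemma Nil.one : Nil 0 1 := by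
  intro ψ y hψ x hx
  exact hψ x (by linarith)

lemma Nil.pow {d : ℝ} {P : E →L[ℝ] E} (hP : Nil d P) (n : ℕ) : Nil (n * d) (P ^ n) := by
  induction n with
  | zero => simpa using Nil.one
  | succ n ih =>
    have := ih.mul hP
    rw [← pow_succ] at this
    refine this.mono (le_of_eq ?_)
    push_cast
    ring

lemma Nil.T {t : ℝ} : Nil t (T t) := by
  intro ψ y hψ x hx
  exact hψ (x + t) (by linarith)

lemma Nil.tail (k₀ : ℕ) : Nil 0 (tail k₀) := by
  intro ψ y hψ x hx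
  refine (tail_apply k₀ ψ x).unique ?_
  convert hasSum_zero with k
  rw [hψ _ (by have := h_pos (k + k₀); linarith), mul_zero]

/-- forward-looking operators -/
lemma Nil.eq_of_eq {P : E →L[ℝ] E} (hP : Nil 0 P) {ψ ψ' : E} {y : ℝ}
    (h : ∀ x, y ≤ x → ψ x = ψ' x) {x : ℝ} (hx : y ≤ x) : (P ψ) x = (P ψ') x := by
  have h1 := hP (ψ - ψ') y (fun z hz => by
    rw [lp.coeFn_sub, Pi.sub_apply, h z hz, sub_self]) x (by linarith)
  rw [map_sub, lp.coeFn_sub, Pi.sub_apply] at h1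
  linarith

lemma WB.mono {W : ℝ → ℝ} {P : E →L[ℝ] E} {R R' : ℝ} (h : WB W P R) (hR : R ≤ R') : WB W P R' := by
  intro ψ a ha hψ x hx
  refine (h ψ a ha hψ x hx).trans ?_
  have := Real.exp_pos (-W x)
  gcongr

lemma WB.add {W : ℝ → ℝ} {P Q : E →L[ℝ] E} {R R' : ℝ} (hP : WB W P R) (hQ : WB W Q R') :
    WB W (P + Q) (R + R') := by
  intro ψ a ha hψ x hx
  show |(P ψ + Q ψ) x| ≤ _
  rw [lp.coeFn_add, Pi.add_apply]
  have h1 := hP ψ a ha hψ x hx
  have h2 := hQ ψ a ha hψ x hx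
  calc |(P ψ) x + (Q ψ) x| ≤ |(P ψ) x| + |(Q ψ) x| := abs_add_le _ _
    _ ≤ R * a * Real.exp (-W x) + R' * a * Real.exp (-W x) := add_le_add h1 h2
    _ = (R + R') * a * Real.exp (-W x) := by ring

lemma WB.smul {W : ℝ → ℝ} {P : E →L[ℝ] E} {R : ℝ} (hP : WB W P R) (r : ℝ) :
    WB W (r • P) (|r| * R) := by
  intro ψ a ha hψ x hx
  show |(r • P ψ) x| ≤ _
  rw [lp.coeFn_smul, Pi.smul_apply, smul_eq_mul, abs_mul]
  have h1 := hP ψ a ha hψ x hx
  calc |r| * |(P ψ) x| ≤ |r| * (R * a * Real.exp (-W x)) := by gcongr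
    _ = |r| * R * a * Real.exp (-W x) := by ring

lemma WB.zero (W : ℝ → ℝ) : WB W 0 0 := by
  intro ψ a ha hψ x hx
  show |(0 : ℝ)| ≤ _
  simp

lemma WB.one (W : ℝ → ℝ) : WB W 1 1 := by
  intro ψ a ha hψ x hx
  rw [one_mul]
  exact hψ x hx

lemma WB.mul {W : ℝ → ℝ} {P Q : E →L[ℝ] E} {R R' : ℝ} (hR' : 0 ≤ R') (hP : WB W P R)
    (hQ : WB W Q R') : WB W (P * Q) (R * R') := by
  intro ψ a ha hψ x hx
  have h1 := hP (Q ψ) (R' * a) (by positivity) (fun z hz => hQ ψ a ha hψ z hz) x hx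
  calc |(P (Q ψ)) x| ≤ R * (R' * a) * Real.exp (-W x) := h1
    _ = R * R' * a * Real.exp (-W x) := by ring

lemma WB.pow {W : ℝ → ℝ} {P : E →L[ℝ] E} {R : ℝ} (hR : 0 ≤ R) (hP : WB W P R) (n : ℕ) :
    WB W (P ^ n) (R ^ n) := by
  induction n with
  | zero => simpa using WB.one W
  | succ n ih =>
    rw [pow_succ, pow_succ]
    exact ih.mul hR hP

lemma WB.T {W : ℝ → ℝ} (hW : IsW W) {t : ℝ} (ht : 0 ≤ t) : WB W (T t) (Real.exp (-W t)) := by
  intro ψ a ha hψ x hx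
  refine (hψ (x + t) (by linarith)).trans ?_
  have h1 := hW.sa x t hx ht
  calc a * Real.exp (-W (x + t)) ≤ a * Real.exp (-W t + -W x) := by
        gcongr; linarith
    _ = Real.exp (-W t) * a * Real.exp (-W x) := by rw [Real.exp_add]; ring

lemma WB.T_one {W : ℝ → ℝ} (hW : IsW W) {t : ℝ} (ht : 0 ≤ t) : WB W (Pab2f70.T t) 1 := by
  refine (WB.T hW ht).mono ?_
  rw [Real.exp_le_one_iff]
  have := hW.nn t ht
  linarith

lemma WB.tail {W : ℝ → ℝ} (hW : IsW W) (k₀ : ℕ) : WB W (tail k₀) ((1 / 16) * (1 / 2) ^ k₀) := by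
  intro ψ a ha hψ x hx
  have h1 := tail_apply k₀ ψ x
  have h2 : HasSum (fun k => c (k + k₀) * (a * Real.exp (-W x)))
      ((1 / 16) * (1 / 2) ^ k₀ * (a * Real.exp (-W x))) := (hasSum_c_tail k₀).mul_right _
  have h3 : ∀ k, ‖c (k + k₀) * ψ (x + h (k + k₀))‖ ≤ c (k + k₀) * (a * Real.exp (-W x)) := by
    intro k
    rw [norm_mul, Real.norm_eq_abs, Real.norm_eq_abs, abs_of_pos (c_pos _)]
    have := c_pos (k + k₀)
    gcongr
    have hh := h_pos (k + k₀)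
    refine (hψ _ (by linarith)).trans ?_
    gcongr
    exact hW.mono hx (by linarith)
  have h4 : |((Pab2f70.tail k₀) ψ) x| ≤ (1 / 16) * (1 / 2) ^ k₀ * (a * Real.exp (-W x)) := by
    rw [← h1.tsum_eq, ← Real.norm_eq_abs]
    exact tsum_of_norm_bounded h2 h3
  calc |((Pab2f70.tail k₀) ψ) x| ≤ (1 / 16) * (1 / 2) ^ k₀ * (a * Real.exp (-W x)) := h4
    _ = _ := by ring

lemma WB.head {W : ℝ → ℝ} (hW : IsW W) (k₀ : ℕ) : WB W (head k₀) (1 / 16) := by
  have h1 : ∀ s : Finset ℕ, WB W (∑ k ∈ s, c k • Pab2f70.T (h k)) (∑ k ∈ s, c k) := by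
    classical
    intro s
    induction s using Finset.induction_on with
    | empty => simpa using WB.zero W
    | insert a s ha ih =>
      rw [Finset.sum_insert ha, Finset.sum_insert ha]
      refine WB.add ?_ ih
      have := (WB.T_one hW (h_pos a).le).smul (c a)
      rwa [abs_of_pos (c_pos a), mul_one] at this
  refine (h1 _).mono ?_
  have h2 := (hasSum_c_tail 0)
  simp only [add_zero, pow_zero, mul_one] at h2
  rw [← h2.tsum_eq]
  exact h2.summable.sum_le_tsum _ (fun k _ => (c_pos k).le)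

lemma Nil.head (k₀ : ℕ) : Nil ((1 / 2) ^ k₀) (head k₀) := by
  refine Nil.sum _ (fun k hk => ?_)
  refine (Nil.smul Nil.T _).mono ?_
  have : k + 1 ≤ k₀ := Finset.mem_range.1 hk
  unfold h
  exact pow_le_pow_of_le_one (by norm_num) (by norm_num) this

/-- **Quasinilpotency**, uniformly in the weight. -/
theorem quasinilpotent {W : ℝ → ℝ} (hW : IsW W) {A : E →L[ℝ] E} (hA : ∀ t, Commute (T t) A)
    (hnil : Nil 1 A) {R : ℝ} (hR : R + 1 / 16 ≤ 1) (hAW : WB W A R) (a N : ℕ) {ψ : E} {b : ℝ}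
    (hb : 0 ≤ b)
    (hψN : ∀ x : ℝ, (N : ℝ) ≤ x → ψ x = 0) (hψ : ∀ x, 0 ≤ x → |ψ x| ≤ b * Real.exp (-W x)) {s : ℕ}
    (hs : 2 * (N * 2 ^ (4 * a)) ≤ s) :
    ∀ x, 0 ≤ x → |(((L + A) ^ s) ψ) x| ≤ ((1 / 4) ^ a) ^ s * b * Real.exp (-W x) := by
  set k₀ := 4 * a with hk₀
  set p := N * 2 ^ k₀ with hp
  set H := head k₀ + A with hH
  set B := tail k₀ with hB
  have hLA : L + A = H + B := by rw [L_eq k₀, hH]; abel
  have hHB : Commute H B := by
    refine comm_tail (fun t => ?_) k₀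
    exact (T_comm_head t k₀).add_right (hA t)
  have hHnil : Nil ((1 / 2) ^ k₀) H := by
    refine (Nil.head k₀).add (hnil.mono ?_)
    exact pow_le_one₀ (by norm_num) (by norm_num)
  have hHW : WB W H 1 := by
    refine ((WB.head hW k₀).add hAW).mono ?_
    linarith
  set η : ℝ := (1 / 16) * (1 / 2) ^ k₀ with hη
  have hη0 : 0 ≤ η := by positivity
  have hη1 : η ≤ 1 := by
    have : (1 / 2 : ℝ) ^ k₀ ≤ 1 := pow_le_one₀ (by norm_num) (by norm_num)
    rw [hη]; linarith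
  have hBW : WB W B η := WB.tail hW k₀
  have hsp : p ≤ s := by omega
  intro x hx
  rw [hLA, hHB.add_pow]
  have hterm : ∀ i ∈ Finset.range (s + 1),
      |((H ^ i * B ^ (s - i) * ((s.choose i : ℕ) : E →L[ℝ] E)) ψ) x| ≤
        (s.choose i : ℝ) * (η ^ (s - p) * b * Real.exp (-W x)) := by
    intro i hi
    have e1 : (H ^ i * B ^ (s - i) * ((s.choose i : ℕ) : E →L[ℝ] E)) ψ =
        (s.choose i : ℝ) • (H ^ i * B ^ (s - i)) ψ := by
      rw [← Nat.cast_comm, ← nsmul_eq_mul]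
      show (s.choose i) • ((H ^ i * B ^ (s - i)) ψ) = _
      rw [Nat.cast_smul_eq_nsmul]
    rw [e1, lp.coeFn_smul, Pi.smul_apply, smul_eq_mul, abs_mul, Nat.abs_cast]
    have hexp := Real.exp_pos (-W x)
    gcongr
    by_cases hip : p ≤ i
    · -- vanishing
      have h1 : ((B ^ (s - i) * H ^ i) ψ) x = 0 := by
        have h2 : Nil (((s - i : ℕ) : ℝ) * 0 + i * (1 / 2) ^ k₀) (B ^ (s - i) * H ^ i) :=
          ((Nil.tail k₀).pow (s - i)).mul (hHnil.pow i)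
        refine h2 ψ N hψN x ?_
        have h3 : (N : ℝ) ≤ i * (1 / 2) ^ k₀ := by
          have h4 : (p : ℝ) ≤ i := by exact_mod_cast hip
          rw [hp] at h4
          push_cast at h4
          rw [one_div, inv_pow, ← div_eq_mul_inv, le_div_iff₀ (by positivity)]
          exact h4
        linarith
      have h2 : H ^ i * B ^ (s - i) = B ^ (s - i) * H ^ i := (hHB.pow_pow i (s - i)).eq
      rw [h2, h1, abs_zero]
      positivity
    · have h1 : WB W (H ^ i * B ^ (s - i)) (1 ^ i * η ^ (s - i)) :=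
        (hHW.pow zero_le_one i).mul (by positivity) (hBW.pow hη0 (s - i))
      refine (h1 ψ b hb hψ x hx).trans ?_
      rw [one_pow, one_mul]
      have h2 : η ^ (s - i) ≤ η ^ (s - p) := pow_le_pow_of_le_one hη0 hη1 (by omega)
      gcongr
  have hsum : |((∑ i ∈ Finset.range (s + 1),
      H ^ i * B ^ (s - i) * ((s.choose i : ℕ) : E →L[ℝ] E)) ψ) x| ≤
      ∑ i ∈ Finset.range (s + 1), (s.choose i : ℝ) * (η ^ (s - p) * b * Real.exp (-W x)) := by
    rw [sum_apply, ← ev_apply, map_sum]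
    refine (Finset.abs_sum_le_sum_abs _ _).trans (Finset.sum_le_sum (fun i hi => ?_))
    rw [ev_apply]
    exact hterm i hi
  refine hsum.trans ?_
  rw [← Finset.sum_mul]
  have h2s : ∑ i ∈ Finset.range (s + 1), (s.choose i : ℝ) = 2 ^ s := by
    exact_mod_cast Nat.sum_range_choose s
  rw [h2s]
  have hexp := Real.exp_pos (-W x)
  have hkey : (2 : ℝ) ^ s * η ^ (s - p) ≤ ((1 / 4) ^ a) ^ s := by
    set θ : ℝ := (1 / 4) ^ a with hθ
    have hθ1 : θ ≤ 1 := pow_le_one₀ (by norm_num) (by norm_num)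
    have hθ0 : 0 < θ := by positivity
    have h1 : η ≤ (θ / 2) ^ 2 := by
      have h2 : (1 / 2 : ℝ) ^ k₀ = θ ^ 2 := by
        rw [hk₀, hθ, pow_mul, ← pow_mul (1 / 4 : ℝ) a 2, mul_comm a 2, pow_mul (1 / 4 : ℝ)]
        norm_num
      rw [hη, h2]
      nlinarith [sq_nonneg θ]
    calc (2 : ℝ) ^ s * η ^ (s - p) ≤ 2 ^ s * ((θ / 2) ^ 2) ^ (s - p) := by gcongr
      _ = 2 ^ s * (θ / 2) ^ (s + (s - 2 * p)) := by
        rw [← pow_mul]
        congr 2
        omega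
      _ = θ ^ s * (θ / 2) ^ (s - 2 * p) := by
        rw [pow_add, ← mul_assoc, ← mul_pow]
        congr 2
        ring
      _ ≤ θ ^ s * 1 := by
        gcongr
        exact pow_le_one₀ (by positivity) (by linarith)
      _ = θ ^ s := mul_one _
  calc 2 ^ s * (η ^ (s - p) * b * Real.exp (-W x)) = (2 ^ s * η ^ (s - p)) * b * Real.exp (-W x) := by
        ring
    _ ≤ ((1 / 4) ^ a) ^ s * b * Real.exp (-W x) := by gcongr

end Pool.Agent.Pab2f70
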