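import Mathlib
import Pool.Agent.Lib.Pab2f70.Props

/-!
# Measurability, and the solution of the stage equation
-/

set_option autoImplicit false

open Filter Topology Set
open scoped ENNReal

namespace Pool.Agent.Pab2f70

/-- the subspace of measurable bounded functions -/
noncomputable def measSub : Submodule ℝ E where
  carrier := {ψ | Measurable (ψ : ℝ → ℝ)}
  add_mem' := by
    intro a b ha hb
    show Measurable ((a + b : E) : ℝ → ℝ)
    rw [lp.coeFn_add]
    exact Measurable.add ha hb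
  zero_mem' := by
    show Measurable ((0 : E) : ℝ → ℝ)
    rw [lp.coeFn_zero]
    exact measurable_const
  smul_mem' := by
    intro r a ha
    show Measurable ((r • a : E) : ℝ → ℝ)
    rw [lp.coeFn_smul]
    exact Measurable.const_smul ha r

lemma mem_measSub {ψ : E} : ψ ∈ measSub ↔ Measurable (ψ : ℝ → ℝ) := Iff.rfl

lemma isClosed_measSub : IsClosed (measSub : Set E) := by
  rw [← isSeqClosed_iff_isClosed]
  intro u a hu hua
  show Measurable (a : ℝ → ℝ)
  refine measurable_of_tendsto_metrizable (fun n => (hu n : Measurable (u n : ℝ → ℝ))) ?_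
  rw [tendsto_pi_nhds]
  intro x
  exact ((ev x).continuous.tendsto a).comp hua

/-- measurability preserving operators -/
def Meas (P : E →L[ℝ] E) : Prop := ∀ ψ : E, ψ ∈ measSub → P ψ ∈ measSub

lemma Meas.add {P Q : E →L[ℝ] E} (hP : Meas P) (hQ : Meas Q) : Meas (P + Q) :=
  fun ψ hψ => measSub.add_mem (hP ψ hψ) (hQ ψ hψ)

lemma Meas.smul {P : E →L[ℝ] E} (hP : Meas P) (r : ℝ) : Meas (r • P) :=
  fun ψ hψ => measSub.smul_mem r (hP ψ hψ)

lemma Meas.mul {P Q : E →L[ℝ] E} (hP : Meas P) (hQ : Meas Q) : Meas (P * Q) :=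
  fun ψ hψ => hP _ (hQ ψ hψ)

lemma Meas.one : Meas 1 := fun _ hψ => hψ

lemma Meas.zero : Meas 0 := fun _ _ => measSub.zero_mem

lemma Meas.pow {P : E →L[ℝ] E} (hP : Meas P) (n : ℕ) : Meas (P ^ n) := by
  induction n with
  | zero => exact Meas.one
  | succ n ih => rw [pow_succ]; exact ih.mul hP

lemma Meas.T (t : ℝ) : Meas (T t) := by
  intro ψ hψ
  rw [mem_measSub] at hψ ⊢
  exact hψ.comp (measurable_id.add_const t)

lemma Meas.chi (a : ℝ) : Meas (chi a) := by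
  intro ψ hψ
  rw [mem_measSub] at hψ ⊢
  exact Measurable.ite measurableSet_Ici hψ measurable_const

lemma Meas.tsum {P : ℕ → E →L[ℝ] E} (hP : ∀ i, Meas (P i)) (hs : Summable P) :
    Meas (∑' i, P i) := by
  intro ψ hψ
  have h1 := hs.hasSum.mapL (ContinuousLinearMap.apply ℝ E ψ)
  have h2 := h1.tendsto_sum_nat
  refine isClosed_measSub.mem_of_tendsto h2 (Eventually.of_forall (fun n => ?_))
  exact measSub.sum_mem (fun i _ => hP i ψ hψ)

lemma Meas.L : Meas L := by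
  unfold Pab2f70.L tail
  exact Meas.tsum (fun k => (Meas.T _).smul _) (summable_term 0)

/-- The operator `G`. -/
noncomputable def G (F : E →L[ℝ] E) (n m : ℝ) : E →L[ℝ] E :=
  (-(1 / m)) • (chi n * (T (-n) * F))

lemma G_apply (F : E →L[ℝ] E) (n m : ℝ) (ψ : E) (x : ℝ) :
    (G F n m ψ) x = if n ≤ x then -(1 / m) * (F ψ) (x - n) else 0 := by
  show ((-(1 / m)) • (chi n (T (-n) (F ψ)))) x = _
  rw [lp.coeFn_smul, Pi.smul_apply, chi_apply, smul_eq_mul]
  split_ifs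
  · rfl
  · simp

lemma norm_G_le (F : E →L[ℝ] E) (n : ℝ) {m : ℝ} (hm : 0 < m) : ‖G F n m‖ ≤ ‖F‖ / m := by
  unfold G
  rw [norm_smul, norm_neg, Real.norm_eq_abs, abs_of_pos (by positivity)]
  have h1 : ‖chi n * (T (-n) * F)‖ ≤ 1 * (1 * ‖F‖) := by
    refine (norm_mul_le _ _).trans ?_
    gcongr
    · exact norm_chi_le n
    · refine (norm_mul_le _ _).trans ?_
      gcongr
      exact norm_T_le _
  calc 1 / m * ‖chi n * (T (-n) * F)‖ ≤ 1 / m * (1 * (1 * ‖F‖)) := by gcongr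
    _ = ‖F‖ / m := by ring

/-- The stage equation has a solution. -/
theorem exists_solution {F : E →L[ℝ] E} (hFm : Meas F) {n m : ℝ} (hm0 : 0 < m)
    (hm : 2 * ‖F‖ ≤ m) {v : E} (hv : ‖v‖ ≤ 1) (hvn : ∀ x, n ≤ x → v x = 0) (hvm : v ∈ measSub) :
    ∃ φ : E, ‖φ‖ ≤ 2 ∧ (∀ x, x < n → φ x = v x) ∧ (∀ x, 0 ≤ x → m * φ (x + n) = -(F φ) x) ∧
      ‖φ - v‖ ≤ 2 * ‖F‖ / m ∧ φ ∈ measSub := by
  have hG : ‖G F n m‖ ≤ 1 / 2 := by
    refine (norm_G_le F n hm0).trans ?_
    rw [div_le_iff₀ hm0]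
    linarith
  have hG1 : ‖G F n m‖ < 1 := by linarith
  set φ : E := (∑' i : ℕ, (G F n m) ^ i) v with hφ
  have h1 : φ = v + G F n m φ := by
    have h2 := mul_neg_geom_series (G F n m) hG1
    have h3 := DFunLike.congr_fun h2 v
    have h4 : ((1 - G F n m) * ∑' i : ℕ, (G F n m) ^ i) v = φ - G F n m φ := rfl
    rw [h4] at h3
    have h5 : ((1 : E →L[ℝ] E)) v = v := rfl
    rw [h5] at h3
    rw [← h3]
    abel
  have h2 : ‖φ‖ ≤ 2 := by
    have h3 : ‖φ‖ ≤ ‖v‖ + ‖G F n m φ‖ := by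
      conv_lhs => rw [h1]
      exact norm_add_le _ _
    have h4 : ‖G F n m φ‖ ≤ 1 / 2 * ‖φ‖ :=
      ((G F n m).le_opNorm φ).trans (by gcongr)
    linarith
  refine ⟨φ, h2, fun x hx => ?_, fun x hx => ?_, ?_, ?_⟩
  · rw [h1, lp.coeFn_add, Pi.add_apply, G_apply, if_neg (not_le.2 hx), add_zero]
  · have h3 : φ (x + n) = -(1 / m) * (F φ) x := by
      conv_lhs => rw [h1]
      rw [lp.coeFn_add, Pi.add_apply, G_apply, if_pos (by linarith), hvn _ (by linarith), zero_add,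
        add_sub_cancel_right]
    rw [h3]
    field_simp
  · have h3 : φ - v = G F n m φ := by
      conv_lhs => rw [h1]
      abel
    rw [h3]
    calc ‖G F n m φ‖ ≤ ‖G F n m‖ * ‖φ‖ := (G F n m).le_opNorm φ
      _ ≤ (‖F‖ / m) * 2 := by
        gcongr
        exact norm_G_le F n hm0
      _ = 2 * ‖F‖ / m := by ring
  · refine Meas.tsum (fun i => ?_) ?_ v hvm
    · refine Meas.pow (Meas.smul ?_ _) i
      exact (Meas.chi n).mul ((Meas.T (-n)).mul hFm)
    · exact summable_geometric_of_norm_lt_one hG1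

section

variable {F : E →L[ℝ] E} {n m : ℝ} {φ : E}

lemma iterate_one (hF : ∀ t, Commute (T t) F) (hFn : Nil 0 F)
    (h : ∀ x, 0 ≤ x → m * φ (x + n) = -(F φ) x) (r : ℕ) {x : ℝ} (hx : 0 ≤ x) :
    m * ((F ^ r) φ) (x + n) = -((F ^ (r + 1)) φ) x := by
  have h1 : Nil 0 (F ^ r) := by simpa using hFn.pow r
  have h2 : ((F ^ r) (m • T n φ)) x = ((F ^ r) (-(F φ))) x := by
    refine h1.eq_of_eq (y := 0) (fun z hz => ?_) hx
    rw [lp.coeFn_smul, Pi.smul_apply, smul_eq_mul, T_apply, lp.coeFn_neg, Pi.neg_apply]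
    exact h z hz
  have h3 : (F ^ r) (T n φ) = T n ((F ^ r) φ) := by
    have := ((hF n).pow_right r).eq
    exact (DFunLike.congr_fun this φ).symm
  rw [map_smul, map_neg, lp.coeFn_smul, Pi.smul_apply, smul_eq_mul, lp.coeFn_neg, Pi.neg_apply,
    h3, T_apply] at h2
  rw [h2, pow_succ]
  rfl

lemma iterate_abs (hm : 0 < m) (hn : 0 ≤ n) (hF : ∀ t, Commute (T t) F) (hFn : Nil 0 F)
    (h : ∀ x, 0 ≤ x → m * φ (x + n) = -(F φ) x) (d : ℕ) :
    ∀ (r : ℕ) {x : ℝ}, 0 ≤ x → m ^ d * |((F ^ r) φ) (x + d * n)| = |((F ^ (r + d)) φ) x| := by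
  induction d with
  | zero => intro r x hx; simp
  | succ d ih =>
    intro r x hx
    have h1 := iterate_one hF hFn h r (x := x + d * n) (by positivity)
    have h2 := ih (r + 1) hx
    have e : x + ((d + 1 : ℕ) : ℝ) * n = x + d * n + n := by push_cast; ring
    rw [e, pow_succ, mul_assoc, ← abs_of_pos hm, ← abs_mul, abs_of_pos hm, h1, abs_neg, h2]
    rw [show r + 1 + d = r + (d + 1) by ring]

end

end Pool.Agent.Pab2f70
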