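import Mathlib
import Pool.Agent.Lib.Pab2f70.Solve

/-!
# The inductive step
-/

set_option autoImplicit false

open Filter Topology Set
open scoped ENNReal

namespace Pool.Agent.Pab2f70

/-- cell sizes -/
def nn : ℕ → ℕ
  | 0 => 1
  | K + 1 => 2 * (nn K * 2 ^ (4 * (K + 4))) * nn K

/-- ratios -/
def q (K : ℕ) : ℕ := 2 * (nn K * 2 ^ (4 * (K + 4)))

lemma nn_succ (K : ℕ) : nn (K + 1) = q K * nn K := rfl

lemma nn_pos (K : ℕ) : 0 < nn K := by
  induction K with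
  | zero => exact Nat.one_pos
  | succ K ih => rw [nn_succ]; unfold q; positivity

lemma q_pos (K : ℕ) : 0 < q K := by
  have := nn_pos K
  unfold q; positivity

/-- `δ_K` -/
noncomputable def del (K : ℕ) : ℝ := (1 / 4) ^ (K + 2)

/-- `ε_K` -/
noncomputable def eps (K : ℕ) : ℝ := 2 * (1 / 4) ^ (K + 2)

/-- sum of the first `ε`'s -/
noncomputable def Rr (K : ℕ) : ℝ := (1 / 6) * (1 - (1 / 4) ^ K)

lemma Rr_succ (K : ℕ) : Rr K + eps K = Rr (K + 1) := by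
  unfold Rr eps
  rw [pow_succ, pow_add]
  ring

lemma Rr_le (K : ℕ) : Rr K + 1 / 16 ≤ 1 := by
  unfold Rr
  have : (0 : ℝ) < (1 / 4) ^ K := by positivity
  linarith

lemma del_pos (K : ℕ) : 0 < del K := by unfold del; positivity

lemma eps_pos (K : ℕ) : 0 < eps K := by unfold eps; positivity

lemma eps_eq (K : ℕ) : eps K = 2 * del K := rfl

lemma del_le_one (K : ℕ) : del K ≤ 1 := pow_le_one₀ (by norm_num) (by norm_num)

lemma eps_le_one (K : ℕ) : eps K ≤ 1 := by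
  unfold eps
  rw [pow_add]
  have : (1 / 4 : ℝ) ^ K ≤ 1 := pow_le_one₀ (by norm_num) (by norm_num)
  linarith

lemma norm_pow_le1 (F : E →L[ℝ] E) (n : ℕ) : ‖F ^ n‖ ≤ ‖F‖ ^ n := by
  rcases Nat.eq_zero_or_pos n with rfl | hn
  · rw [pow_zero, pow_zero]; exact ContinuousLinearMap.norm_id_le
  · exact norm_pow_le' F hn

lemma smul_T_pow (m n : ℝ) (i : ℕ) (ψ : E) : ((m • T n) ^ i) ψ = m ^ i • T (i * n) ψ := by
  induction i with
  | zero => simp [T_zero]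
  | succ i ih =>
    rw [pow_succ']
    show (m • T n) (((m • T n) ^ i) ψ) = _
    rw [ih]
    show m • T n (m ^ i • T (i * n) ψ) = _
    rw [map_smul, smul_smul]
    have e : T n (T (i * n) ψ) = T (((i + 1 : ℕ) : ℝ) * n) ψ := by
      have := DFunLike.congr_fun (T_mul n (i * n)) ψ
      rw [show n + (i : ℝ) * n = ((i + 1 : ℕ) : ℝ) * n by push_cast; ring] at this
      exact this
    rw [e, pow_succ' m i]

section Estimate

/-! ### The core estimate -/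

variable {F : E →L[ℝ] E} {n m : ℝ} {φ : E}

/-- bound for the tail of `φ` -/
lemma norm_sigma_le (hm : 0 < m) (hn : 0 ≤ n) (hF : ∀ t, Commute (T t) F) (hFn : Nil 0 F)
    (h : ∀ x, 0 ≤ x → m * φ (x + n) = -(F φ) x) (hφ : ‖φ‖ ≤ 2) (Q : ℕ) :
    ‖chi (Q * n) φ‖ ≤ 2 * (‖F‖ / m) ^ Q := by
  refine norm_le_of (by positivity) (fun y => ?_)
  rw [chi_apply]
  split_ifs with hy
  · have h1 := iterate_abs hm hn hF hFn h Q 0 (x := y - Q * n) (by linarith)
    rw [sub_add_cancel, zero_add, pow_zero] at h1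
    have h2 : |((F ^ Q) φ) (y - Q * n)| ≤ ‖F‖ ^ Q * 2 := by
      refine (norm_apply_le _ _).trans (((F ^ Q).le_opNorm φ).trans ?_)
      gcongr
      exact norm_pow_le1 F Q
    have h3 : |φ y| = |((F ^ Q) φ) (y - Q * n)| / m ^ Q := by
      rw [← h1]
      have : m ^ Q ≠ 0 := by positivity
      field_simp
      rfl
    rw [h3, div_pow, div_le_iff₀ (by positivity)]
    calc |((F ^ Q) φ) (y - Q * n)| ≤ ‖F‖ ^ Q * 2 := h2
      _ = 2 * (‖F‖ ^ Q / m ^ Q) * m ^ Q := by field_simp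
  · simp only [abs_zero]; positivity

/-- a term of the binomial expansion -/
lemma term_bound (hm : 1 ≤ m) (hn : 0 < n) (hF : ∀ t, Commute (T t) F) (hFn : Nil 0 F)
    (h : ∀ x, 0 ≤ x → m * φ (x + n) = -(F φ) x) (hφ : ‖φ‖ ≤ 2) {Q : ℕ} {s i d : ℕ} (hi : i ≤ s)
    {x₀ : ℝ} (hx₀ : 0 ≤ x₀) {b : ℝ} (hb : 0 ≤ b)
    (hbound : Q ≤ s + d → |((F ^ (s + d)) φ) x₀| ≤ b) :
    m ^ i * |((F ^ (s - i)) (chi (Q * n) φ)) (x₀ + d * n + i * n)| ≤
      (b + 2 * (1 + ‖F‖) ^ (s + Q) / m) / m ^ d := by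
  have hm0 : 0 < m := by linarith
  have hMnn : 0 ≤ ‖F‖ := norm_nonneg _
  have hFp : ∀ r : ℕ, Nil 0 (F ^ r) := fun r => by simpa using hFn.pow r
  by_cases hdi : Q ≤ d + i
  · -- main term
    have h1 : ((F ^ (s - i)) (chi (Q * n) φ)) (x₀ + d * n + i * n) =
        ((F ^ (s - i)) φ) (x₀ + d * n + i * n) := by
      refine (hFp _).eq_of_eq (y := Q * n) (fun z hz => ?_) ?_
      · rw [chi_apply, if_pos hz]
      · have : (Q : ℝ) ≤ d + i := by exact_mod_cast hdi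
        nlinarith
    have h2 := iterate_abs hm0 hn.le hF hFn h (d + i) (s - i) hx₀
    have e : x₀ + ((d + i : ℕ) : ℝ) * n = x₀ + d * n + i * n := by push_cast; ring
    rw [e, show s - i + (d + i) = s + d by omega] at h2
    rw [h1]
    have h3 : m ^ i * |((F ^ (s - i)) φ) (x₀ + d * n + i * n)| =
        |((F ^ (s + d)) φ) x₀| / m ^ d := by
      rw [← h2, pow_add]
      have : m ^ d ≠ 0 := by positivity
      field_simp
    rw [h3]
    gcongr
    refine (hbound (by omega)).trans ?_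
    have : 0 ≤ 2 * (1 + ‖F‖) ^ (s + Q) / m := by positivity
    linarith
  · push Not at hdi
    have h1 : |((F ^ (s - i)) (chi (Q * n) φ)) (x₀ + d * n + i * n)| ≤
        ‖F‖ ^ (s - i) * (2 * (‖F‖ / m) ^ Q) := by
      refine (norm_apply_le _ _).trans (((F ^ (s - i)).le_opNorm _).trans ?_)
      gcongr
      · exact norm_pow_le1 F _
      · exact norm_sigma_le hm0 hn.le hF hFn h hφ Q
    have h2 : m ^ i * m ^ (d + 1) ≤ m ^ Q := by
      rw [← pow_add]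
      exact pow_le_pow_right₀ hm (by omega)
    have h3 : ‖F‖ ^ (s - i) * ‖F‖ ^ Q ≤ (1 + ‖F‖) ^ (s + Q) := by
      rw [← pow_add]
      calc ‖F‖ ^ (s - i + Q) ≤ (1 + ‖F‖) ^ (s - i + Q) := by gcongr; linarith
        _ ≤ (1 + ‖F‖) ^ (s + Q) := pow_le_pow_right₀ (by linarith) (by omega)
    calc m ^ i * |((F ^ (s - i)) (chi (Q * n) φ)) (x₀ + d * n + i * n)|
        ≤ m ^ i * (‖F‖ ^ (s - i) * (2 * (‖F‖ / m) ^ Q)) := by gcongr
      _ = 2 * (‖F‖ ^ (s - i) * ‖F‖ ^ Q) * (m ^ i / m ^ Q) := by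
        rw [div_pow]; ring
      _ ≤ 2 * (1 + ‖F‖) ^ (s + Q) * (1 / m ^ (d + 1)) := by
        have h4 : m ^ i / m ^ Q ≤ 1 / m ^ (d + 1) := by
          rw [div_le_div_iff₀ (by positivity) (by positivity), one_mul]
          exact h2
        gcongr
      _ = (2 * (1 + ‖F‖) ^ (s + Q) / m) / m ^ d := by
        rw [pow_succ]
        field_simp
      _ ≤ (b + 2 * (1 + ‖F‖) ^ (s + Q) / m) / m ^ d := by
        gcongr
        linarith

/-- **Core estimate.** -/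
theorem core_estimate (hm : 1 ≤ m) (hn : 0 < n) (hF : ∀ t, Commute (T t) F) (hFn : Nil 0 F)
    (h : ∀ x, 0 ≤ x → m * φ (x + n) = -(F φ) x) (hφ : ‖φ‖ ≤ 2) {Q : ℕ} {s d : ℕ} (hs : 1 ≤ s)
    {x₀ : ℝ} (hx₀ : 0 ≤ x₀) {b : ℝ} (hb : 0 ≤ b)
    (hbound : Q ≤ s + d → |((F ^ (s + d)) φ) x₀| ≤ b) :
    |(((F + m • T n) ^ s) (φ - chi (Q * n) φ)) (x₀ + d * n)| ≤
      2 ^ s * ((b + 2 * (1 + ‖F‖) ^ (s + Q) / m) / m ^ d) := by
  set Z := F + m • T n with hZ
  have hZn : Nil 0 Z := hFn.add ((Nil.smul Nil.T m).mono hn.le)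
  have hx : 0 ≤ x₀ + d * n := by positivity
  -- `Z φ = 0` on `[0, ∞)`
  have hZφ : ∀ x, 0 ≤ x → (Z φ) x = 0 := by
    intro x hx
    show (F φ + m • T n φ) x = 0
    rw [lp.coeFn_add, Pi.add_apply, lp.coeFn_smul, Pi.smul_apply, smul_eq_mul, T_apply, h x hx]
    ring
  have h1 : ((Z ^ s) φ) (x₀ + d * n) = 0 := by
    obtain ⟨s', rfl⟩ : ∃ s', s = s' + 1 := ⟨s - 1, by omega⟩
    rw [pow_succ]
    have h2 : Nil 0 (Z ^ s') := by simpa using hZn.pow s'
    exact h2 (Z φ) 0 hZφ _ (by linarith)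
  rw [map_sub, lp.coeFn_sub, Pi.sub_apply, h1, zero_sub, abs_neg]
  -- binomial expansion
  have hcomm : Commute (m • T n) F := (comm_smul (hF n).symm m).symm
  have hZ' : Z = m • T n + F := by rw [hZ, add_comm]
  rw [hZ', hcomm.add_pow]
  have hterm : ∀ i ∈ Finset.range (s + 1),
      |(((m • T n) ^ i * F ^ (s - i) * ((s.choose i : ℕ) : E →L[ℝ] E)) (chi (Q * n) φ))
        (x₀ + d * n)| ≤
        (s.choose i : ℝ) * ((b + 2 * (1 + ‖F‖) ^ (s + Q) / m) / m ^ d) := by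
    intro i hi
    have e1 : ((m • T n) ^ i * F ^ (s - i) * ((s.choose i : ℕ) : E →L[ℝ] E)) (chi (Q * n) φ) =
        (s.choose i : ℝ) • ((m • T n) ^ i) ((F ^ (s - i)) (chi (Q * n) φ)) := by
      rw [← Nat.cast_comm, ← nsmul_eq_mul]
      show (s.choose i) • (((m • T n) ^ i * F ^ (s - i)) (chi (Q * n) φ)) = _
      rw [Nat.cast_smul_eq_nsmul]
      rfl
    rw [e1, smul_T_pow, lp.coeFn_smul, Pi.smul_apply, smul_eq_mul, abs_mul, Nat.abs_cast, lp.coeFn_smul,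
      Pi.smul_apply, smul_eq_mul, abs_mul, abs_of_pos (by positivity : 0 < m ^ i), T_apply]
    gcongr
    exact term_bound hm hn hF hFn h hφ (by simpa [Nat.lt_succ_iff] using hi) hx₀ hb hbound
  rw [sum_apply, ← ev_apply, map_sum]
  refine (Finset.abs_sum_le_sum_abs _ _).trans ((Finset.sum_le_sum hterm).trans (le_of_eq ?_))
  rw [← Finset.sum_mul]
  have h2s : ∑ i ∈ Finset.range (s + 1), (s.choose i : ℝ) = 2 ^ s := by
    exact_mod_cast Nat.sum_range_choose s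
  rw [h2s]

end Estimate

end Pool.Agent.Pab2f70
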