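import Mathlib
import Pool.Agent.Lib.Pab2f70.Stage

/-!
# The inductive step, quantitative part
-/

set_option autoImplicit false

open Filter Topology Set
open scoped ENNReal

namespace Pool.Agent.Pab2f70

section

variable {F : E →L[ℝ] E} {W : ℝ → ℝ} {v φ : E} {n m ε δ δ' : ℝ} {Q S : ℕ}

/-- bound for `F^r φ` -/
lemma Fr_bound (hφdiff : ‖φ - v‖ ≤ 2 * ‖F‖ / m) (r : ℕ) (x : ℝ) :
    |((F ^ r) φ) x| ≤ |((F ^ r) v) x| + 2 * ‖F‖ ^ (r + 1) / m := by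
  have h1 : ((F ^ r) φ) x = ((F ^ r) v) x + ((F ^ r) (φ - v)) x := by
    rw [map_sub, lp.coeFn_sub, Pi.sub_apply]; ring
  have h2 : |((F ^ r) (φ - v)) x| ≤ 2 * ‖F‖ ^ (r + 1) / m := by
    refine (norm_apply_le _ _).trans (((F ^ r).le_opNorm _).trans ?_)
    calc ‖F ^ r‖ * ‖φ - v‖ ≤ ‖F‖ ^ r * (2 * ‖F‖ / m) := by
          gcongr
          exact norm_pow_le1 F r
      _ = 2 * ‖F‖ ^ (r + 1) / m := by rw [pow_succ]; ring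
  rw [h1]
  exact (abs_add_le _ _).trans (by linarith)

lemma pow_bound {M : ℝ} (hM : 0 ≤ M) {a b : ℕ} (hab : a ≤ b) : M ^ a ≤ (1 + M) ^ b :=
  (pow_le_pow_left₀ hM (by linarith) _).trans (pow_le_pow_right₀ (by linarith) hab)

/-- the error term is small -/
lemma err_bound (hm : 0 < m) (hε : 0 < ε) (hε1 : ε ≤ 1) (hδ' : 0 < δ') (hδ'1 : δ' ≤ 1)
    (hW : IsW W) (hBd : 8 * 2 ^ S * (1 + ‖F‖) ^ (S + Q + 1) * Real.exp (W n) /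
      (δ' ^ S * ε ^ Q) ≤ m) {r d : ℕ} {x₀ : ℝ} (hr : r ≤ S) (hd : d ≤ Q) (hx₀ : 0 ≤ x₀)
    (hx₀n : x₀ < n) :
    8 * 2 ^ r * (1 + ‖F‖) ^ (r + Q + 1) / m ≤ δ' ^ r * ε ^ d * Real.exp (-W x₀) := by
  have hM0 : 0 ≤ ‖F‖ := norm_nonneg _
  have hWx : W x₀ ≤ W n := hW.mono hx₀ hx₀n.le
  have h1 : 8 * 2 ^ r * (1 + ‖F‖) ^ (r + Q + 1) ≤ 8 * 2 ^ S * (1 + ‖F‖) ^ (S + Q + 1) := by
    have e1 : (2 : ℝ) ^ r ≤ 2 ^ S := pow_le_pow_right₀ (by norm_num) hr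
    have e2 : (1 + ‖F‖) ^ (r + Q + 1) ≤ (1 + ‖F‖) ^ (S + Q + 1) :=
      pow_le_pow_right₀ (by linarith) (by omega)
    gcongr
  have h2 : δ' ^ S * ε ^ Q * Real.exp (-W n) ≤ δ' ^ r * ε ^ d * Real.exp (-W x₀) := by
    have e1 : δ' ^ S ≤ δ' ^ r := pow_le_pow_of_le_one hδ'.le hδ'1 hr
    have e2 : ε ^ Q ≤ ε ^ d := pow_le_pow_of_le_one hε.le hε1 hd
    gcongr
  refine le_trans ?_ h2
  rw [div_le_iff₀ hm]
  have hexp := Real.exp_pos (W n)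
  have h3 : δ' ^ S * ε ^ Q * Real.exp (-W n) * (8 * 2 ^ S * (1 + ‖F‖) ^ (S + Q + 1) *
      Real.exp (W n) / (δ' ^ S * ε ^ Q)) = 8 * 2 ^ S * (1 + ‖F‖) ^ (S + Q + 1) := by
    rw [Real.exp_neg]
    field_simp
  calc 8 * 2 ^ r * (1 + ‖F‖) ^ (r + Q + 1) ≤ 8 * 2 ^ S * (1 + ‖F‖) ^ (S + Q + 1) := h1
    _ = _ := h3.symm
    _ ≤ δ' ^ S * ε ^ Q * Real.exp (-W n) * m := by gcongr

/-- the case `r = 0` -/
lemma zero_bound (hn : 0 < n) (hm : 0 < m) (hε : 0 < ε) (hε1 : ε ≤ 1) (hδ : 0 < δ)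
    (hεδ : ε = 2 * δ) (hδ' : 0 < δ') (hδ'1 : δ' ≤ 1)
    (hFcomm : ∀ t, Commute (T t) F) (hFnil : Nil 0 F) (hφv : ∀ x, x < n → φ x = v x)
    (hφrel : ∀ x, 0 ≤ x → m * φ (x + n) = -(F φ) x) (hφdiff : ‖φ - v‖ ≤ 2 * ‖F‖ / m)
    (hW : IsW W) (hv : ∀ (r : ℕ) (x : ℝ), 0 ≤ x → |((F ^ r) v) x| ≤ δ ^ r * Real.exp (-W x))
    (hBd : 8 * 2 ^ S * (1 + ‖F‖) ^ (S + Q + 1) * Real.exp (W n) / (δ' ^ S * ε ^ Q) ≤ m)
    {d : ℕ} {x₀ : ℝ} (hd : d < Q) (hx₀ : 0 ≤ x₀) (hx₀n : x₀ < n) :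
    |φ (x₀ + d * n)| ≤ Real.exp (-W x₀) * ε ^ d / m ^ d := by
  have hM0 : 0 ≤ ‖F‖ := norm_nonneg _
  rcases Nat.eq_zero_or_pos d with rfl | hd0
  · have h1 := hv 0 x₀ hx₀
    simp only [pow_zero, one_mul] at h1
    rw [Nat.cast_zero, zero_mul, add_zero, hφv x₀ hx₀n, pow_zero, pow_zero, mul_one, div_one]
    exact h1
  · have h1 := iterate_abs hm hn.le hFcomm hFnil hφrel d 0 hx₀
    rw [pow_zero, zero_add] at h1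
    have h1' : m ^ d * |φ (x₀ + d * n)| = |((F ^ d) φ) x₀| := h1
    rw [le_div_iff₀ (by positivity), mul_comm _ (m ^ d), h1']
    refine (Fr_bound hφdiff d x₀).trans ?_
    have h2 := hv d x₀ hx₀
    have h3 : δ ^ d ≤ 1 / 2 * ε ^ d := by
      rw [hεδ, mul_pow]
      have e1 : (2 : ℝ) ≤ 2 ^ d := le_self_pow₀ (by norm_num) (by omega)
      have e2 := pow_pos hδ d
      calc δ ^ d = 1 / 2 * (2 * δ ^ d) := by ring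
        _ ≤ 1 / 2 * (2 ^ d * δ ^ d) := by gcongr
    have h4 := err_bound (r := 0) (d := d) hm hε hε1 hδ' hδ'1 hW hBd (Nat.zero_le _) hd.le hx₀ hx₀n
    rw [pow_zero, pow_zero, mul_one, one_mul, zero_add] at h4
    have h5 : 2 * ‖F‖ ^ (d + 1) / m ≤ 1 / 4 * (8 * (1 + ‖F‖) ^ (Q + 1) / m) := by
      have e1 : ‖F‖ ^ (d + 1) ≤ (1 + ‖F‖) ^ (Q + 1) := pow_bound hM0 (by omega)
      calc 2 * ‖F‖ ^ (d + 1) / m ≤ 2 * (1 + ‖F‖) ^ (Q + 1) / m := by gcongr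
        _ = 1 / 4 * (8 * (1 + ‖F‖) ^ (Q + 1) / m) := by ring
    have hexp := Real.exp_pos (-W x₀)
    have h6 : |((F ^ d) v) x₀| ≤ 1 / 2 * ε ^ d * Real.exp (-W x₀) := h2.trans (by gcongr)
    have h7 : 0 < ε ^ d * Real.exp (-W x₀) := by positivity
    calc |((F ^ d) v) x₀| + 2 * ‖F‖ ^ (d + 1) / m
        ≤ 1 / 2 * ε ^ d * Real.exp (-W x₀) + 1 / 4 * (ε ^ d * Real.exp (-W x₀)) := by linarith
      _ ≤ Real.exp (-W x₀) * ε ^ d := by linarith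

/-- the case `1 ≤ r ≤ S` -/
lemma main_bound (hn : 0 < n) (hm1 : 1 ≤ m) (hε : 0 < ε) (hε1 : ε ≤ 1)
    (hδ' : 0 < δ') (hδ'1 : δ' ≤ 1) (hδ'ε : δ' / 4 ≤ ε)
    (hFcomm : ∀ t, Commute (T t) F) (hFnil : Nil 0 F) (hφ2 : ‖φ‖ ≤ 2)
    (hφrel : ∀ x, 0 ≤ x → m * φ (x + n) = -(F φ) x) (hφdiff : ‖φ - v‖ ≤ 2 * ‖F‖ / m)
    (hW : IsW W) (hvQ : ∀ (r : ℕ), Q ≤ r → ∀ x : ℝ, 0 ≤ x →
      |((F ^ r) v) x| ≤ (δ' / 4) ^ r * Real.exp (-W x))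
    (hBd : 8 * 2 ^ S * (1 + ‖F‖) ^ (S + Q + 1) * Real.exp (W n) / (δ' ^ S * ε ^ Q) ≤ m)
    {r d : ℕ} {x₀ : ℝ} (hr : 1 ≤ r) (hrS : r ≤ S) (hd : d < Q) (hx₀ : 0 ≤ x₀) (hx₀n : x₀ < n) :
    |(((F + m • T n) ^ r) (φ - chi (Q * n) φ)) (x₀ + d * n)| ≤
      δ' ^ r * (Real.exp (-W x₀) * ε ^ d / m ^ d) := by
  have hm : 0 < m := by linarith
  have hM0 : 0 ≤ ‖F‖ := norm_nonneg _
  have hexp := Real.exp_pos (-W x₀)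
  set η : ℝ := δ' / 4 with hη
  have hη0 : 0 < η := by positivity
  set b : ℝ := η ^ (r + d) * Real.exp (-W x₀) + 2 * (1 + ‖F‖) ^ (r + Q + 1) / m with hb
  have hb0 : 0 ≤ b := by positivity
  have hbound : Q ≤ r + d → |((F ^ (r + d)) φ) x₀| ≤ b := by
    intro hQr
    refine (Fr_bound hφdiff (r + d) x₀).trans (add_le_add (hvQ (r + d) hQr x₀ hx₀) ?_)
    have e1 : ‖F‖ ^ (r + d + 1) ≤ (1 + ‖F‖) ^ (r + Q + 1) := pow_bound hM0 (by omega)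
    gcongr
  have h2 := core_estimate hm1 hn hFcomm hFnil hφrel hφ2 (Q := Q) hr hx₀ hb0 hbound
  refine h2.trans ?_
  rw [← mul_div_assoc, ← mul_div_assoc]
  have h3 : 2 * (1 + ‖F‖) ^ (r + Q) / m ≤ 2 * (1 + ‖F‖) ^ (r + Q + 1) / m := by
    have : (1 + ‖F‖) ^ (r + Q) ≤ (1 + ‖F‖) ^ (r + Q + 1) :=
      pow_le_pow_right₀ (by linarith) (by omega)
    gcongr
  have h4 := err_bound (r := r) (d := d) hm hε hε1 hδ' hδ'1 hW hBd hrS hd.le hx₀ hx₀n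
  have h5 : 2 ^ r * η ^ (r + d) ≤ 1 / 2 * (δ' ^ r * ε ^ d) := by
    have e3 : 2 ^ r * η ^ r ≤ 1 / 2 * δ' ^ r := by
      rw [← mul_pow, show 2 * η = 1 / 2 * δ' by rw [hη]; ring, mul_pow]
      have : (1 / 2 : ℝ) ^ r ≤ 1 / 2 := pow_le_of_le_one (by norm_num) (by norm_num) (by omega)
      gcongr
    calc 2 ^ r * η ^ (r + d) = (2 ^ r * η ^ r) * η ^ d := by rw [pow_add]; ring
      _ ≤ (1 / 2 * δ' ^ r) * ε ^ d := by gcongr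
      _ = _ := by ring
  have h7 : 2 ^ r * (η ^ (r + d) * Real.exp (-W x₀)) ≤
      1 / 2 * (δ' ^ r * ε ^ d * Real.exp (-W x₀)) := by
    have := mul_le_mul_of_nonneg_right h5 hexp.le
    linarith
  have h8 : (0 : ℝ) < 2 ^ r := by positivity
  have h9 := mul_le_mul_of_nonneg_left h3 h8.le
  have h10 : 2 ^ r * (b + 2 * (1 + ‖F‖) ^ (r + Q) / m) ≤ δ' ^ r * (Real.exp (-W x₀) * ε ^ d) := by
    calc 2 ^ r * (b + 2 * (1 + ‖F‖) ^ (r + Q) / m)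
        = 2 ^ r * (η ^ (r + d) * Real.exp (-W x₀)) +
          2 ^ r * (2 * (1 + ‖F‖) ^ (r + Q + 1) / m) + 2 ^ r * (2 * (1 + ‖F‖) ^ (r + Q) / m) := by
          rw [hb]; ring
      _ ≤ 1 / 2 * (δ' ^ r * ε ^ d * Real.exp (-W x₀)) +
          2 ^ r * (2 * (1 + ‖F‖) ^ (r + Q + 1) / m) +
          2 ^ r * (2 * (1 + ‖F‖) ^ (r + Q + 1) / m) := by linarith
      _ = 1 / 2 * (δ' ^ r * ε ^ d * Real.exp (-W x₀)) +
          1 / 2 * (8 * 2 ^ r * (1 + ‖F‖) ^ (r + Q + 1) / m) := by ring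
      _ ≤ 1 / 2 * (δ' ^ r * ε ^ d * Real.exp (-W x₀)) +
          1 / 2 * (δ' ^ r * ε ^ d * Real.exp (-W x₀)) := by linarith
      _ = δ' ^ r * (Real.exp (-W x₀) * ε ^ d) := by ring
  gcongr

end

end Pool.Agent.Pab2f70
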