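import Mathlib
import Pool.Agent.Lib.Pab2f70.Step

/-!
# The inductive step: states, invariants, existence of the next state
-/

set_option autoImplicit false

open Filter Topology Set
open scoped ENNReal

namespace Pool.Agent.Pab2f70

/-- a state of the construction -/
structure State where
  /-- the far part of the relation -/
  A : E →L[ℝ] E
  /-- the exponent of the weight -/
  W : ℝ → ℝ
  /-- the functional on the cell -/
  v : E

/-- invariants at stage `K` -/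
structure Inv (K : ℕ) (s : State) : Prop where
  isW : IsW s.W
  cell : ∀ (d : ℕ) (x : ℝ), 0 ≤ x → s.W (x + d * (nn K : ℝ)) = s.W x + d * s.W (nn K : ℝ)
  comm : ∀ t, Commute (T t) s.A
  nil : Nil 1 s.A
  wb : ∀ W' : ℝ → ℝ, IsW W' → (∀ x, 0 ≤ x → s.W x ≤ W' x) → WB W' s.A (Rr K)
  measA : Meas s.A
  measV : s.v ∈ measSub
  vneg : ∀ x, x < 0 → s.v x = 0
  vbig : ∀ x, (nn K : ℝ) ≤ x → s.v x = 0
  vone : ∀ x, 0 ≤ x → x < 1 → s.v x = 1
  bound : ∀ (r : ℕ) (x : ℝ), 0 ≤ x → |(((L + s.A) ^ r) s.v) x| ≤ del K ^ r * Real.exp (-s.W x)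

/-- relation between consecutive states -/
structure Step (K : ℕ) (s s' : State) (J : ℝ) : Prop where
  hW : ∀ x, s'.W x = s.W x + J * (⌊x / (nn K : ℝ)⌋₊ : ℝ)
  hA : s'.A = s.A + (eps K * Real.exp (s'.W (nn K : ℝ))) • T (nn K : ℝ)
  hv : ∀ x, x < (nn K : ℝ) → s'.v x = s.v x
  hφ : ∃ φ : E, (∀ x, 0 ≤ x → ((L + s'.A) φ) x = 0) ∧ ∀ x, x < (nn (K + 1) : ℝ) → s'.v x = φ x

lemma nil_L : Nil 0 L := Nil.tail 0

lemma floor_superadd {a b : ℝ} (ha : 0 ≤ a) (hb : 0 ≤ b) :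
    ((⌊a⌋₊ : ℝ) + ⌊b⌋₊) ≤ (⌊a + b⌋₊ : ℝ) := by
  have : ⌊a⌋₊ + ⌊b⌋₊ ≤ ⌊a + b⌋₊ := by
    rw [Nat.le_floor_iff (by positivity)]
    push_cast
    exact add_le_add (Nat.floor_le ha) (Nat.floor_le hb)
  exact_mod_cast this

/-- the next exponent -/
noncomputable def nextW (W : ℝ → ℝ) (J n : ℝ) (x : ℝ) : ℝ := W x + J * (⌊x / n⌋₊ : ℝ)

lemma isW_step {W : ℝ → ℝ} (hW : IsW W) {J n : ℝ} (hJ : 0 ≤ J) (hn : 0 < n) :
    IsW (nextW W J n) := by
  constructor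
  · intro x hx
    have := hW.nn x hx
    unfold nextW
    positivity
  · intro x y hx hy
    have h1 := hW.sa x y hx hy
    have h2 := floor_superadd (a := x / n) (b := y / n) (by positivity) (by positivity)
    rw [← add_div] at h2
    have h3 := mul_le_mul_of_nonneg_left h2 hJ
    unfold nextW
    linarith

lemma le_nextW (W : ℝ → ℝ) {J n : ℝ} (hJ : 0 ≤ J) (x : ℝ) : W x ≤ nextW W J n x := by
  unfold nextW
  have : 0 ≤ J * (⌊x / n⌋₊ : ℝ) := by positivity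
  linarith

lemma nextW_cell {W : ℝ → ℝ} (hW : IsW W) {J n : ℝ} (hn : 0 < n)
    (hcell : ∀ (d : ℕ) (x : ℝ), 0 ≤ x → W (x + d * n) = W x + d * W n) (d Q : ℕ) {x : ℝ}
    (hx : 0 ≤ x) : nextW W J n (x + d * (Q * n)) = nextW W J n x + d * nextW W J n (Q * n) := by
  have e1 : W (x + d * (Q * n)) = W x + (d * Q) * W n := by
    have := hcell (d * Q) x hx
    push_cast at this
    rw [← this]
    congr 1
    ring
  have e2 : W (Q * n) = Q * W n := by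
    have := hcell Q 0 le_rfl
    rw [zero_add, hW.zero, zero_add] at this
    exact this
  have e3 : ⌊(x + d * (Q * n)) / n⌋₊ = ⌊x / n⌋₊ + d * Q := by
    have : (x + d * (Q * n)) / n = x / n + ((d * Q : ℕ) : ℝ) := by
      push_cast; field_simp
    rw [this, Nat.floor_add_natCast (by positivity)]
  have e4 : ⌊(Q * n) / n⌋₊ = Q := by
    rw [mul_div_cancel_right₀ _ hn.ne', Nat.floor_natCast]
  unfold nextW
  rw [e1, e2, e3, e4]
  push_cast
  ring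

lemma nextW_n (W : ℝ → ℝ) {J n : ℝ} (hn : 0 < n) : nextW W J n n = W n + J := by
  unfold nextW
  rw [div_self hn.ne', Nat.floor_one, Nat.cast_one, mul_one]

lemma exp_nextW {W : ℝ → ℝ} {J n ε m : ℝ} (hn : 0 < n) (hε : 0 < ε)
    (hcell : ∀ (d : ℕ) (x : ℝ), 0 ≤ x → W (x + d * n) = W x + d * W n)
    (hm : m = ε * Real.exp (nextW W J n n)) (d : ℕ) {x₀ : ℝ} (hx₀ : 0 ≤ x₀) (hx₀n : x₀ < n) :
    Real.exp (-nextW W J n (x₀ + d * n)) = Real.exp (-W x₀) * ε ^ d / m ^ d := by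
  have h1 : nextW W J n (x₀ + d * n) = W x₀ + d * nextW W J n n := by
    rw [nextW_n W hn]
    have h2 : ⌊(x₀ + d * n) / n⌋₊ = d := by
      rw [add_div, mul_div_cancel_right₀ _ hn.ne', Nat.floor_add_natCast (by positivity),
        Nat.floor_eq_zero.2 ((div_lt_one hn).2 hx₀n), zero_add]
    unfold nextW
    rw [h2, hcell d x₀ hx₀]
    ring
  have h3 : Real.exp (-nextW W J n n) = ε / m := by
    rw [hm, Real.exp_neg]
    field_simp
  rw [h1, neg_add, Real.exp_add, mul_div_assoc, ← div_pow, ← h3, ← Real.exp_nat_mul]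
  congr 2
  ring

lemma exists_decomp {n : ℝ} (hn : 0 < n) {Q : ℕ} {x : ℝ} (hx : 0 ≤ x) (hxQ : x < Q * n) :
    ∃ (d : ℕ) (x₀ : ℝ), d < Q ∧ 0 ≤ x₀ ∧ x₀ < n ∧ x = x₀ + d * n := by
  have h1 : (⌊x / n⌋₊ : ℝ) ≤ x / n := Nat.floor_le (by positivity)
  have h2 : x / n < ⌊x / n⌋₊ + 1 := Nat.lt_floor_add_one _
  rw [le_div_iff₀ hn] at h1
  rw [div_lt_iff₀ hn] at h2
  refine ⟨⌊x / n⌋₊, x - ⌊x / n⌋₊ * n, ?_, by linarith, by linarith, by ring⟩
  rw [Nat.floor_lt (by positivity), div_lt_iff₀ hn]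
  exact hxQ

/-- choice of the jump -/
lemma exists_jump {ε Bd Wn J₀ : ℝ} (hε : 0 < ε) (hBd : 0 < Bd) (hWn : 0 ≤ Wn) :
    ∃ J : ℝ, J₀ ≤ J ∧ 0 ≤ J ∧ Bd ≤ ε * Real.exp (Wn + J) := by
  refine ⟨max J₀ (max 0 (Real.log (Bd / ε))), le_max_left _ _,
    (le_max_left _ _).trans (le_max_right _ _), ?_⟩
  calc Bd = ε * (Bd / ε) := by field_simp
    _ = ε * Real.exp (Real.log (Bd / ε)) := by rw [Real.exp_log (by positivity)]
    _ ≤ ε * Real.exp (Wn + max J₀ (max 0 (Real.log (Bd / ε)))) := by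
      gcongr
      have := (le_max_right 0 (Real.log (Bd / ε))).trans
        (le_max_right J₀ (max 0 (Real.log (Bd / ε))))
      linarith

lemma eight_le_Bd {M δ' ε Wn : ℝ} (hM : 0 ≤ M) (hδ' : 0 < δ') (hδ'1 : δ' ≤ 1) (hε : 0 < ε)
    (hε1 : ε ≤ 1) (hWn : 0 ≤ Wn) (S Q : ℕ) :
    8 * (1 + M) ≤ 8 * 2 ^ S * (1 + M) ^ (S + Q + 1) * Real.exp Wn / (δ' ^ S * ε ^ Q) := by
  have hden : 0 < δ' ^ S * ε ^ Q := by positivity
  have hden1 : δ' ^ S * ε ^ Q ≤ 1 :=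
    mul_le_one₀ (pow_le_one₀ hδ'.le hδ'1) (by positivity) (pow_le_one₀ hε.le hε1)
  rw [le_div_iff₀ hden]
  have h1 : (1 : ℝ) ≤ 2 ^ S := one_le_pow₀ (by norm_num)
  have h2 : 1 + M ≤ (1 + M) ^ (S + Q + 1) := le_self_pow₀ (by linarith) (by omega)
  have h3 : 1 ≤ Real.exp Wn := Real.one_le_exp hWn
  calc 8 * (1 + M) * (δ' ^ S * ε ^ Q) ≤ 8 * (1 + M) * 1 := by gcongr
    _ = 8 * 1 * (1 + M) * 1 := by ring
    _ ≤ 8 * 2 ^ S * (1 + M) ^ (S + Q + 1) * Real.exp Wn := by gcongr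

lemma norm_v_le {K : ℕ} {s : State} (hs : Inv K s) : ‖s.v‖ ≤ 1 := by
  refine norm_le_of zero_le_one (fun x => ?_)
  rcases lt_or_ge x 0 with hx | hx
  · rw [hs.vneg x hx, abs_zero]; exact zero_le_one
  · have h1 := hs.bound 0 x hx
    rw [pow_zero, pow_zero, one_mul] at h1
    refine le_trans h1 ?_
    rw [Real.exp_le_one_iff]
    have := hs.isW.nn x hx
    linarith

theorem step_exists (K : ℕ) (s : State) (hs : Inv K s) (J₀ : ℝ) :
    ∃ (J : ℝ) (s' : State), J₀ ≤ J ∧ 0 ≤ J ∧ Step K s s' J ∧ Inv (K + 1) s' := by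
  have hcell := hs.cell
  have hvbig := hs.vbig
  have hn1 : (1 : ℝ) ≤ (nn K : ℝ) := by exact_mod_cast nn_pos K
  have hNQ : ((nn (K + 1) : ℕ) : ℝ) = (q K : ℝ) * (nn K : ℝ) := by
    rw [nn_succ]; push_cast; rfl
  have hQ1 : (1 : ℝ) ≤ (q K : ℝ) := by exact_mod_cast q_pos K
  have hvQ0 : ∀ (r : ℕ), q K ≤ r → ∀ x : ℝ, 0 ≤ x →
      |(((L + s.A) ^ r) s.v) x| ≤ (del (K + 1) / 4) ^ r * Real.exp (-s.W x) := by
    intro r hr x hx
    have h1 := quasinilpotent hs.isW hs.comm hs.nil (Rr_le K)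
      (hs.wb s.W hs.isW (fun _ _ => le_rfl)) (K + 4) (nn K) (ψ := s.v) zero_le_one hs.vbig
      (fun z hz => by
        have := hs.bound 0 z hz
        simpa using this) (s := r) hr x hx
    rw [mul_one] at h1
    have e : del (K + 1) / 4 = (1 / 4 : ℝ) ^ (K + 4) := by
      rw [show del (K + 1) = (1 / 4 : ℝ) ^ (K + 3) from rfl, pow_succ (1 / 4 : ℝ) (K + 3)]; ring
    rw [e]
    exact h1
  obtain ⟨S, hS⟩ : ∃ S : ℕ, S = 2 * (nn (K + 1) * 2 ^ (4 * (K + 3))) := ⟨_, rfl⟩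
  obtain ⟨n, hn⟩ : ∃ n : ℝ, (nn K : ℝ) = n := ⟨_, rfl⟩
  obtain ⟨Q, hQ⟩ : ∃ Q : ℕ, q K = Q := ⟨_, rfl⟩
  rw [hn] at hn1 hNQ
  rw [hQ] at hNQ hQ1 hvQ0
  simp only [hn] at hcell hvbig
  have hn0 : 0 < n := by linarith
  have hnQ : n ≤ Q * n := le_mul_of_one_le_left hn0.le hQ1
  obtain ⟨F, hF⟩ : ∃ F : E →L[ℝ] E, L + s.A = F := ⟨_, rfl⟩
  have hFcomm : ∀ t, Commute (T t) F := fun t => by
    rw [← hF]; exact (T_comm_tail t 0).add_right (hs.comm t)
  have hFnil : Nil 0 F := by rw [← hF]; exact nil_L.add (hs.nil.mono zero_le_one)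
  have hFmeas : Meas F := by rw [← hF]; exact Meas.L.add hs.measA
  have hv1 : ‖s.v‖ ≤ 1 := norm_v_le hs
  have hbound := hs.bound
  rw [hF] at hvQ0
  simp only [hF] at hbound
  have hε := eps_pos K
  have hε1 := eps_le_one K
  have hδ := del_pos K
  have hδ' := del_pos (K + 1)
  have hδ'1 := del_le_one (K + 1)
  have hδ'ε : del (K + 1) / 4 ≤ eps K := by
    rw [show del (K + 1) = (1 / 4 : ℝ) ^ (K + 3) from rfl,
      show eps K = 2 * (1 / 4 : ℝ) ^ (K + 2) from rfl, pow_succ (1 / 4 : ℝ) (K + 2)]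
    have : (0 : ℝ) < (1 / 4) ^ (K + 2) := by positivity
    linarith
  have hWn : 0 ≤ s.W n := hs.isW.nn n hn0.le
  have h8 := eight_le_Bd (M := ‖F‖) (norm_nonneg _) hδ' hδ'1 hε hε1 hWn S Q
  obtain ⟨Bd, hBd⟩ : ∃ Bd : ℝ, 8 * 2 ^ S * (1 + ‖F‖) ^ (S + Q + 1) * Real.exp (s.W n) /
    (del (K + 1) ^ S * eps K ^ Q) = Bd := ⟨_, rfl⟩
  rw [hBd] at h8
  have hM0 : 0 ≤ ‖F‖ := norm_nonneg _
  obtain ⟨J, hJ₀, hJ0, hJ⟩ := exists_jump (ε := eps K) (Bd := Bd) (Wn := s.W n) (J₀ := J₀) hε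
    (by linarith) hWn
  have hisW' : IsW (nextW s.W J n) := isW_step hs.isW hJ0 hn0
  obtain ⟨m, hm⟩ : ∃ m : ℝ, m = eps K * Real.exp (nextW s.W J n n) := ⟨_, rfl⟩
  have hmBd : Bd ≤ m := by rw [hm, nextW_n s.W hn0]; exact hJ
  have hm1 : 1 ≤ m := by linarith
  have hmpos : 0 < m := by linarith
  have hm2M : 2 * ‖F‖ ≤ m := by linarith
  have hBdm := hmBd
  rw [← hBd] at hBdm
  obtain ⟨φ, hφ2, hφv, hφrel, hφdiff, hφmeas⟩ :=
    exists_solution hFmeas hmpos hm2M hv1 hvbig hs.measV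
  obtain ⟨v', hv'⟩ : ∃ v' : E, v' = φ - chi (Q * n) φ := ⟨_, rfl⟩
  have hv'_lt : ∀ x, x < Q * n → v' x = φ x := by
    intro x hx
    rw [hv', lp.coeFn_sub, Pi.sub_apply, chi_apply, if_neg (not_le.2 hx), sub_zero]
  have hv'_ge : ∀ x, Q * n ≤ x → v' x = 0 := by
    intro x hx
    rw [hv', lp.coeFn_sub, Pi.sub_apply, chi_apply, if_pos hx, sub_self]
  have hLA' : L + (s.A + m • T n) = F + m • T n := by rw [← hF, add_assoc]
  -- the case `r = 0`
  have hzero : ∀ x, 0 ≤ x → |v' x| ≤ 1 * Real.exp (-nextW s.W J n x) := by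
    intro x hx
    rw [one_mul]
    rcases lt_or_ge x (Q * n) with hxQ | hxQ
    · obtain ⟨d, x₀, hd, hx₀, hx₀n, rfl⟩ := exists_decomp hn0 hx hxQ
      rw [exp_nextW hn0 hε hcell hm d hx₀ hx₀n, hv'_lt _ hxQ]
      exact zero_bound hn0 hmpos hε hε1 hδ (eps_eq K) hδ' hδ'1 hFcomm hFnil hφv hφrel hφdiff
        hs.isW hbound hBdm hd hx₀ hx₀n
    · rw [hv'_ge x hxQ, abs_zero]
      positivity
  -- weighted bound for the new far part
  have hwb' : ∀ W'' : ℝ → ℝ, IsW W'' → (∀ x, 0 ≤ x → nextW s.W J n x ≤ W'' x) →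
      WB W'' (s.A + m • T n) (Rr (K + 1)) := by
    intro W'' hW'' hle
    have h1 : WB W'' s.A (Rr K) :=
      hs.wb W'' hW'' (fun x hx => (le_nextW s.W hJ0 x).trans (hle x hx))
    have h2 := (WB.T hW'' hn0.le).smul m
    rw [abs_of_pos hmpos] at h2
    refine (h1.add h2).mono ?_
    rw [← Rr_succ]
    have h3 : m * Real.exp (-W'' n) ≤ eps K := by
      calc m * Real.exp (-W'' n) ≤ m * Real.exp (-nextW s.W J n n) := by
            gcongr; exact hle n hn0.le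
        _ = eps K := by rw [hm, mul_assoc, ← Real.exp_add]; simp
    linarith
  have hcomm' : ∀ t, Commute (T t) (s.A + m • T n) := fun t =>
    (hs.comm t).add_right (comm_smul (T_comm t n) m)
  have hnil' : Nil 1 (s.A + m • T n) := hs.nil.add ((Nil.smul Nil.T m).mono hn1)
  refine ⟨J, ⟨s.A + m • T n, nextW s.W J n, v'⟩, hJ₀, hJ0, ?_, ?_⟩
  · refine ⟨fun x => ?_, ?_, fun x hx => ?_, φ, fun x hx => ?_, fun x hx => ?_⟩
    · show nextW s.W J n x = _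
      rw [hn]; rfl
    · show s.A + m • T n = s.A + (eps K * Real.exp (nextW s.W J n (nn K : ℝ))) • T (nn K : ℝ)
      rw [hn, hm]
    · show v' x = s.v x
      rw [hn] at hx
      rw [hv'_lt x (lt_of_lt_of_le hx hnQ), hφv x hx]
    · show ((L + (s.A + m • T n)) φ) x = 0
      rw [hLA']
      show (F φ + m • T n φ) x = 0
      rw [lp.coeFn_add, Pi.add_apply, lp.coeFn_smul, Pi.smul_apply, smul_eq_mul, T_apply,
        hφrel x hx]
      ring
    · rw [hNQ] at hx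
      exact hv'_lt x hx
  refine ⟨hisW', ?_, hcomm', hnil', hwb', hs.measA.add ((Meas.T n).smul m), ?_, ?_, ?_, ?_, ?_⟩
  · intro d x hx
    show nextW s.W J n (x + d * ((nn (K + 1) : ℕ) : ℝ)) =
      nextW s.W J n x + d * nextW s.W J n ((nn (K + 1) : ℕ) : ℝ)
    rw [hNQ]
    exact nextW_cell hs.isW hn0 hcell d Q hx
  · rw [hv']
    exact measSub.sub_mem hφmeas (Meas.chi _ φ hφmeas)
  · intro x hx
    show v' x = 0
    have h1 : x < n := by linarith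
    rw [hv'_lt x (lt_of_lt_of_le h1 hnQ), hφv x h1, hs.vneg x hx]
  · intro x hx
    rw [hNQ] at hx
    exact hv'_ge x hx
  · intro x hx hx1
    show v' x = 1
    have h1 : x < n := by linarith
    rw [hv'_lt x (lt_of_lt_of_le h1 hnQ), hφv x h1, hs.vone x hx hx1]
  · -- the main bound
    intro r x hx
    show |(((L + (s.A + m • T n)) ^ r) v') x| ≤ del (K + 1) ^ r * Real.exp (-nextW s.W J n x)
    rcases Nat.eq_zero_or_pos r with rfl | hr
    · rw [pow_zero, pow_zero]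
      exact hzero x hx
    rcases le_or_gt S r with hrS | hrS
    · -- large powers: quasinilpotency
      have h1 := quasinilpotent hisW' hcomm' hnil' (Rr_le (K + 1)) (hwb' _ hisW' (fun _ _ => le_rfl))
        (K + 3) (nn (K + 1)) (ψ := v') zero_le_one (fun x hx => by
          rw [hNQ] at hx; exact hv'_ge x hx) hzero (s := r) (by rw [hS] at hrS; exact hrS) x hx
      rw [mul_one] at h1
      exact h1
    · rw [hLA']
      rcases lt_or_ge x (Q * n) with hxQ | hxQ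
      · obtain ⟨d, x₀, hd, hx₀, hx₀n, rfl⟩ := exists_decomp hn0 hx hxQ
        rw [exp_nextW hn0 hε hcell hm d hx₀ hx₀n, hv']
        exact main_bound hn0 hm1 hε hε1 hδ' hδ'1 hδ'ε hFcomm hFnil hφ2 hφrel hφdiff hs.isW hvQ0
          hBdm hr hrS.le hd hx₀ hx₀n
      · have h1 : Nil 0 ((F + m • T n) ^ r) := by
          have h2 : Nil 0 (F + m • T n) := hFnil.add ((Nil.smul Nil.T m).mono hn0.le)
          simpa using h2.pow r
        rw [h1 v' (Q * n) hv'_ge x (by linarith), abs_zero]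
        positivity

end Pool.Agent.Pab2f70
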