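import Mathlib
import Pool.Agent.Lib.Pab2f70.Induct

/-!
# The weight and the functional
-/

set_option autoImplicit false

open Filter Topology Set
open scoped ENNReal

namespace Pool.Agent.Pab2f70

lemma norm_L_le : ‖L‖ ≤ 1 / 16 := by
  have hs := hasSum_c_tail 0
  rw [pow_zero, mul_one] at hs
  unfold L tail
  refine tsum_of_norm_bounded hs (fun k => ?_)
  rw [norm_smul, Real.norm_eq_abs, abs_of_pos (c_pos _)]
  have h2 := c_pos (k + 0)
  calc c (k + 0) * ‖T (h (k + 0))‖ ≤ c (k + 0) * 1 := by gcongr; exact norm_T_le _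
    _ = c (k + 0) := mul_one _

/-- the initial functional -/
noncomputable def v₀ : E := mk (fun x => if 0 ≤ x ∧ x < 1 then 1 else 0) 1 (fun x => by
  split_ifs <;> simp)

lemma v₀_apply (x : ℝ) : v₀ x = if 0 ≤ x ∧ x < 1 then 1 else 0 := rfl

/-- the initial state -/
noncomputable def s₀ : State := ⟨0, fun _ => 0, v₀⟩

lemma inv₀ : Inv 0 s₀ := by
  have hnn : ((nn 0 : ℕ) : ℝ) = 1 := by simp [nn]
  refine ⟨⟨fun _ _ => le_rfl, fun _ _ _ _ => by simp [s₀]⟩, fun d x hx => by simp [s₀], fun t => ?_,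
    Nil.zero 1, fun W' _ _ => ?_, Meas.zero, ?_, ?_, ?_, ?_, ?_⟩
  · exact Commute.zero_right _
  · have : Rr 0 = 0 := by unfold Rr; simp
    rw [this]
    exact WB.zero W'
  · show Measurable fun x : ℝ => if 0 ≤ x ∧ x < 1 then (1 : ℝ) else 0
    exact Measurable.ite measurableSet_Ico measurable_const measurable_const
  · intro x hx
    show v₀ x = 0
    rw [v₀_apply, if_neg (by intro h; linarith [h.1])]
  · intro x hx
    rw [hnn] at hx
    show v₀ x = 0
    rw [v₀_apply, if_neg (by intro h; linarith [h.2])]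
  · intro x hx hx1
    show v₀ x = 1
    rw [v₀_apply, if_pos ⟨hx, hx1⟩]
  · intro r x hx
    show |(((L + 0) ^ r) v₀) x| ≤ del 0 ^ r * Real.exp (-0)
    rw [add_zero, neg_zero, Real.exp_zero, mul_one]
    have h1 : ‖v₀‖ ≤ 1 := by
      refine norm_le_of zero_le_one (fun y => ?_)
      rw [v₀_apply]
      split_ifs <;> simp
    have h2 : del 0 = 1 / 16 := by unfold del; norm_num
    refine (norm_apply_le _ _).trans (((L ^ r).le_opNorm v₀).trans ?_)
    calc ‖L ^ r‖ * ‖v₀‖ ≤ (1 / 16) ^ r * 1 := by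
          gcongr
          exact (norm_pow_le1 L r).trans (pow_le_pow_left₀ (norm_nonneg _) norm_L_le r)
      _ = del 0 ^ r := by rw [mul_one, h2]

theorem exists_seq (B : ℕ → ℝ) : ∃ (s : ℕ → State) (J : ℕ → ℝ), s 0 = s₀ ∧ (∀ K, Inv K (s K)) ∧
    (∀ K, Step K (s K) (s (K + 1)) (J K)) ∧ (∀ K : ℕ, B K ≤ J K) ∧
    ∀ K, 0 ≤ J K := by
  choose! Jf nf h1 h2 h3 h4 using fun (K : ℕ) (s : State) (hs : Inv K s) =>
    step_exists K s hs (B K)
  let sq : (K : ℕ) → State := fun K => Nat.rec s₀ (fun K s => nf K s) K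
  have hinv : ∀ K, Inv K (sq K) := by
    intro K
    induction K with
    | zero => exact inv₀
    | succ K ih => exact h4 K (sq K) ih
  exact ⟨sq, fun K => Jf K (sq K), rfl, hinv, fun K => h3 K (sq K) (hinv K),
    fun K => h1 K (sq K) (hinv K), fun K => h2 K (sq K) (hinv K)⟩

lemma two_nn_le (K : ℕ) : 2 * nn K ≤ nn (K + 1) := by
  rw [nn_succ]
  have h1 : 2 ≤ q K := by
    unfold q
    have := nn_pos K
    have h2 : 0 < nn K * 2 ^ (4 * (K + 4)) := by positivity
    omega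
  exact Nat.mul_le_mul_right _ h1

lemma lt_nn (K : ℕ) : K < nn K := by
  induction K with
  | zero => exact Nat.one_pos
  | succ K ih =>
    have := two_nn_le K
    omega

lemma nn_mono {j k : ℕ} (h : j ≤ k) : nn j ≤ nn k := by
  induction k, h using Nat.le_induction with
  | base => exact le_rfl
  | succ k _ ih =>
    have := two_nn_le k
    omega

lemma summable_eps : Summable eps := by
  unfold eps
  have h := (summable_geometric_of_lt_one (r := (1 / 4 : ℝ)) (by norm_num) (by norm_num)).mul_left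
    (2 * (1 / 4 : ℝ) ^ 2)
  refine h.congr (fun K => ?_)
  rw [pow_add]
  ring

/-- The output of the construction. -/
theorem construction (B : ℕ → ℝ) : ∃ (W φ : ℝ → ℝ), IsW W ∧ Measurable φ ∧
    (∀ K : ℕ, ∀ x : ℝ, (nn K : ℝ) ≤ x → B K ≤ W x) ∧
    (∀ K : ℕ, ∀ x : ℝ, (nn K : ℝ) ≤ x → K * x ≤ W x) ∧
    (∀ x, 0 ≤ x → x < 1 → φ x = 1) ∧
    (∀ x, 0 ≤ x → |φ x| ≤ Real.exp (-W x)) ∧
    (∀ x, 0 ≤ x → ∑' k, c k * φ (x + h k) +
      ∑' j, (eps j * Real.exp (W (nn j : ℝ))) * φ (x + (nn j : ℝ)) = 0) := by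
  obtain ⟨s, J, hs0, hinv, hstep, hJB, hJ0⟩ :=
    exists_seq (fun K => max (B K) (2 * K * (nn K : ℝ)))
  have hJ : ∀ K : ℕ, 2 * K * (nn K : ℝ) ≤ J K := fun K => (le_max_right _ _).trans (hJB K)
  -- the exponent
  set W : ℝ → ℝ := fun x => ∑' j, J j * (⌊x / (nn j : ℝ)⌋₊ : ℝ) with hW
  have hnn0 : ∀ j, (0 : ℝ) < (nn j : ℝ) := fun j => by exact_mod_cast nn_pos j
  have hsW : ∀ K x, (s K).W x = ∑ j ∈ Finset.range K, J j * (⌊x / (nn j : ℝ)⌋₊ : ℝ) := by
    intro K x
    induction K with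
    | zero => rw [hs0]; simp [s₀]
    | succ K ih => rw [(hstep K).hW, Finset.sum_range_succ, ih]
  have hfloor : ∀ K j : ℕ, ∀ x : ℝ, x < nn K → K ≤ j → ⌊x / (nn j : ℝ)⌋₊ = 0 := by
    intro K j x hx hKj
    rw [Nat.floor_eq_zero, div_lt_one (hnn0 j)]
    exact hx.trans_le (by exact_mod_cast nn_mono hKj)
  have hWK : ∀ K x, x < (nn K : ℝ) → W x = (s K).W x := by
    intro K x hx
    rw [hsW]
    refine tsum_eq_sum (fun j hj => ?_)
    rw [Finset.mem_range, not_lt] at hj
    rw [hfloor K j x hx hj]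
    simp
  have hlarge : ∀ x : ℝ, ∃ K : ℕ, x < nn K := by
    intro x
    obtain ⟨K, hK⟩ := exists_nat_gt x
    exact ⟨K, hK.trans (by exact_mod_cast lt_nn K)⟩
  have hisW : IsW W := by
    constructor
    · intro x hx
      obtain ⟨K, hK⟩ := hlarge x
      rw [hWK K x hK]
      exact (hinv K).isW.nn x hx
    · intro x y hx hy
      obtain ⟨K, hK⟩ := hlarge (x + y)
      rw [hWK K (x + y) hK, hWK K x (by linarith), hWK K y (by linarith)]
      exact (hinv K).isW.sa x y hx hy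
  have hge : ∀ K : ℕ, ∀ x : ℝ, (nn K : ℝ) ≤ x → J K * (⌊x / (nn K : ℝ)⌋₊ : ℝ) ≤ W x := by
    intro K x hx
    have hx0 : 0 < x := (hnn0 K).trans_le hx
    obtain ⟨K', hK'⟩ := hlarge x
    have hKK' : K < K' := by
      by_contra hcon
      push Not at hcon
      have : (nn K' : ℝ) ≤ nn K := by exact_mod_cast nn_mono hcon
      linarith
    rw [hWK K' x hK', hsW]
    have h1 : J K * (⌊x / (nn K : ℝ)⌋₊ : ℝ) ≤
        ∑ j ∈ Finset.range K', J j * (⌊x / (nn j : ℝ)⌋₊ : ℝ) := by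
      refine Finset.single_le_sum (f := fun j => J j * (⌊x / (nn j : ℝ)⌋₊ : ℝ)) (fun j _ => ?_)
        (Finset.mem_range.2 hKK')
      have := hJ0 j
      positivity
    exact h1
  have hgrowB : ∀ K : ℕ, ∀ x : ℝ, (nn K : ℝ) ≤ x → B K ≤ W x := by
    intro K x hx
    refine le_trans ?_ (hge K x hx)
    have h2 : 1 ≤ x / (nn K : ℝ) := (one_le_div (hnn0 K)).2 hx
    have h4 : (1 : ℝ) ≤ ⌊x / (nn K : ℝ)⌋₊ := by
      have : 1 ≤ ⌊x / (nn K : ℝ)⌋₊ := by
        rw [Nat.one_le_floor_iff]; exact h2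
      exact_mod_cast this
    have h5 : B K ≤ J K := (le_max_left _ _).trans (hJB K)
    have h6 := hJ0 K
    nlinarith
  have hgrow : ∀ K : ℕ, ∀ x : ℝ, (nn K : ℝ) ≤ x → K * x ≤ W x := by
    intro K x hx
    have hx0 : 0 < x := (hnn0 K).trans_le hx
    refine le_trans ?_ (hge K x hx)
    have h2 : 1 ≤ x / (nn K : ℝ) := (one_le_div (hnn0 K)).2 hx
    have h3 : x / (nn K : ℝ) < ⌊x / (nn K : ℝ)⌋₊ + 1 := Nat.lt_floor_add_one _
    have h4 : (1 : ℝ) ≤ ⌊x / (nn K : ℝ)⌋₊ := by
      have : 1 ≤ ⌊x / (nn K : ℝ)⌋₊ := by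
        rw [Nat.one_le_floor_iff]; exact h2
      exact_mod_cast this
    have h5 : x ≤ 2 * (nn K : ℝ) * (⌊x / (nn K : ℝ)⌋₊ : ℝ) := by
      rw [div_lt_iff₀ (hnn0 K)] at h3
      nlinarith [hnn0 K]
    calc (K : ℝ) * x ≤ K * (2 * (nn K : ℝ) * (⌊x / (nn K : ℝ)⌋₊ : ℝ)) := by gcongr
      _ = 2 * K * (nn K : ℝ) * (⌊x / (nn K : ℝ)⌋₊ : ℝ) := by ring
      _ ≤ J K * (⌊x / (nn K : ℝ)⌋₊ : ℝ) := by
        gcongr
        exact hJ K
  -- the functional
  have hvcons : ∀ K K' : ℕ, K ≤ K' → ∀ x : ℝ, x < nn K → (s K').v x = (s K).v x := by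
    intro K K' hKK'
    induction K', hKK' using Nat.le_induction with
    | base => intro x _; rfl
    | succ K' hKK' ih =>
      intro x hx
      rw [(hstep K').hv x (hx.trans_le (by exact_mod_cast nn_mono hKK')), ih x hx]
  set φ : ℝ → ℝ := fun x => (s (⌊x⌋₊ + 1)).v x with hφ
  have hx_lt : ∀ x : ℝ, x < nn (⌊x⌋₊ + 1) := by
    intro x
    have h1 := Nat.lt_floor_add_one x
    have h2 : ((⌊x⌋₊ + 1 : ℕ) : ℝ) < nn (⌊x⌋₊ + 1) := by exact_mod_cast lt_nn _
    push_cast at h2
    linarith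
  have hφK : ∀ K : ℕ, ∀ x : ℝ, x < nn K → φ x = (s K).v x := by
    intro K x hx
    rcases le_total K (⌊x⌋₊ + 1) with h1 | h1
    · exact hvcons K _ h1 x hx
    · exact (hvcons _ K h1 x (hx_lt x)).symm
  have hφm : Measurable φ := by
    refine measurable_of_tendsto_metrizable (fun K => ((hinv K).measV : Measurable _)) ?_
    rw [tendsto_pi_nhds]
    intro x
    refine tendsto_const_nhds.congr' ?_
    filter_upwards [eventually_ge_atTop (⌊x⌋₊ + 1)] with K hK
    exact (hvcons _ K hK x (hx_lt x)).symm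
  have hφb : ∀ x, 0 ≤ x → |φ x| ≤ Real.exp (-W x) := by
    intro x hx
    obtain ⟨K, hK⟩ := hlarge x
    rw [hφK K x hK, hWK K x hK]
    have := (hinv K).bound 0 x hx
    simpa using this
  refine ⟨W, φ, hisW, hφm, hgrowB, hgrow, ?_, hφb, ?_⟩
  · intro x hx hx1
    have : x < nn 0 := by simpa [nn] using hx1
    rw [hφK 0 x this]
    exact (hinv 0).vone x hx hx1
  · intro x hx
    set m : ℕ → ℝ := fun j => eps j * Real.exp (W (nn j : ℝ)) with hm
    have hmpos : ∀ j, 0 < m j := fun j => by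
      have := eps_pos j
      simp only [hm]; positivity
    have hA : ∀ K, (s K).A = ∑ j ∈ Finset.range K, m j • T (nn j : ℝ) := by
      intro K
      induction K with
      | zero => rw [hs0]; simp [s₀]
      | succ K ih =>
        rw [(hstep K).hA, Finset.sum_range_succ, ih, ← hWK (K + 1)]
        exact_mod_cast (by have := two_nn_le K; have := nn_pos K; omega : nn K < nn (K + 1))
    have hsum : Summable fun j => m j * φ (x + (nn j : ℝ)) := by
      refine Summable.of_norm_bounded summable_eps (fun j => ?_)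
      rw [norm_mul, Real.norm_eq_abs, Real.norm_eq_abs, abs_of_pos (hmpos j)]
      have h1 := hφb (x + (nn j : ℝ)) (by have := hnn0 j; linarith)
      have h2 : W (nn j : ℝ) ≤ W (x + (nn j : ℝ)) := hisW.mono (hnn0 j).le (by linarith)
      calc m j * |φ (x + (nn j : ℝ))| ≤ m j * Real.exp (-W (nn j : ℝ)) := by
            have := hmpos j
            gcongr
            refine h1.trans ?_
            gcongr
        _ = eps j := by simp only [hm]; rw [mul_assoc, ← Real.exp_add]; simp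
    have hpart : ∀ K : ℕ, x ≤ K → ∑ j ∈ Finset.range (K + 1), m j * φ (x + (nn j : ℝ)) =
        -∑' k, c k * φ (x + h k) := by
      intro K hxK
      obtain ⟨ψ, hψ1, hψ2⟩ := (hstep K).hφ
      have hbig : x + nn K < nn (K + 1) := by
        have h1 : (2 * nn K : ℝ) ≤ nn (K + 1) := by exact_mod_cast two_nn_le K
        have h2 : (K : ℝ) < nn K := by exact_mod_cast lt_nn K
        linarith
      have hψφ : ∀ y : ℝ, y ≤ x + nn K → ψ y = φ y := by
        intro y hy
        rw [hφK (K + 1) y (by linarith), hψ2 y (by linarith)]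
      have h1 := hψ1 x hx
      have h2 : ((L + (s (K + 1)).A) ψ) x = (L ψ) x + ((s (K + 1)).A ψ) x := by
        show (L ψ + (s (K + 1)).A ψ) x = _
        rw [lp.coeFn_add, Pi.add_apply]
      have h3 : (L ψ) x = ∑' k, c k * φ (x + h k) := by
        have h4 := (tail_apply 0 ψ x).tsum_eq
        unfold L
        rw [← h4]
        refine tsum_congr (fun k => ?_)
        rw [add_zero, hψφ]
        have := h_le k
        have h5 : (1 : ℝ) ≤ nn K := by exact_mod_cast nn_pos K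
        linarith
      have h4 : ((s (K + 1)).A ψ) x = ∑ j ∈ Finset.range (K + 1), m j * φ (x + (nn j : ℝ)) := by
        rw [hA, sum_apply, ← ev_apply, map_sum]
        refine Finset.sum_congr rfl (fun j hj => ?_)
        have hjK : j ≤ K := by have := Finset.mem_range.1 hj; omega
        show (m j • T (nn j : ℝ) ψ) x = _
        rw [lp.coeFn_smul, Pi.smul_apply, smul_eq_mul, T_apply, hψφ]
        have : (nn j : ℝ) ≤ nn K := by exact_mod_cast nn_mono hjK
        linarith
      rw [h2, h3, h4] at h1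
      linarith
    have hlim := hsum.hasSum.tendsto_sum_nat.comp (tendsto_add_atTop_nat 1)
    have hlim2 : Tendsto (fun K : ℕ => ∑ j ∈ Finset.range (K + 1), m j * φ (x + (nn j : ℝ)))
        atTop (𝓝 (-∑' k, c k * φ (x + h k))) := by
      refine tendsto_const_nhds.congr' ?_
      filter_upwards [eventually_ge_atTop ⌈x⌉₊] with K hK
      exact (hpart K (Nat.ceil_le.1 hK)).symm
    have := tendsto_nhds_unique hlim hlim2
    rw [this]
    ring

end Pool.Agent.Pab2f70
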