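import Mathlib
import Pool.Agent.Lib.Pab2f70.Construct

/-!
# From atoms to a function: the non-cyclic element
-/

set_option autoImplicit false

open Filter Topology Set MeasureTheory
open scoped ENNReal

namespace Pool.Agent.Pab2f70

/-- `integrable_tsum`. -/
lemma integrable_tsum' {α : Type*} [MeasurableSpace α] {μ : Measure α} {G : ℕ → α → ℝ}
    (hG : ∀ i, Integrable (G i) μ) (hs : Summable fun i => ∫ x, ‖G i x‖ ∂μ) :
    Integrable (fun x => ∑' i, G i x) μ := by
  have hfin : ∑' i, ∫⁻ a, ‖G i a‖ₑ ∂μ ≠ ∞ := by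
    have (i : ℕ) : ∫⁻ a, ‖G i a‖ₑ ∂μ = ‖∫ a, ‖G i a‖ ∂μ‖ₑ := by
      rw [Real.enorm_of_nonneg (integral_nonneg (fun a ↦ norm_nonneg (G i a))),
        ofReal_integral_norm_eq_lintegral_enorm (hG i)]
    rw [funext this]
    exact ENNReal.tsum_coe_ne_top_iff_summable.2 <| NNReal.summable_coe.1 hs.abs
  have hswap : ∫⁻ a, ∑' i, ‖G i a‖ₑ ∂μ = ∑' i, ∫⁻ a, ‖G i a‖ₑ ∂μ :=
    lintegral_tsum (fun i => (hG i).1.enorm)
  have hae : ∀ᵐ a ∂μ, Summable fun i => G i a := by
    have h1 : ∀ᵐ a ∂μ, ∑' i, ‖G i a‖ₑ < ∞ := by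
      refine ae_lt_top' (AEMeasurable.tsum (fun i => (hG i).1.enorm)) ?_
      rw [hswap]; exact hfin
    filter_upwards [h1] with a ha
    have h2 : Summable fun i => ‖G i a‖₊ := ENNReal.tsum_coe_ne_top_iff_summable.1 ha.ne
    exact Summable.of_norm (NNReal.summable_coe.2 h2)
  refine ⟨?_, ?_⟩
  · refine aestronglyMeasurable_of_tendsto_ae (u := atTop)
      (f := fun n : ℕ => fun x => ∑ i ∈ Finset.range n, G i x) (fun n => ?_) ?_
    · exact Finset.aestronglyMeasurable_fun_sum _ (fun i _ => (hG i).1)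
    · filter_upwards [hae] with a ha
      exact ha.hasSum.tendsto_sum_nat
  · unfold HasFiniteIntegral
    calc ∫⁻ a, ‖∑' i, G i a‖ₑ ∂μ ≤ ∫⁻ a, ∑' i, ‖G i a‖ₑ ∂μ :=
          lintegral_mono (fun a => enorm_tsum_le_tsum_enorm)
      _ < ∞ := by rw [hswap]; exact hfin.lt_top

/-- the unit block starting at `t` -/
noncomputable def blk (t x : ℝ) : ℝ := (Ioo t (t + 1)).indicator (fun _ => (1 : ℝ)) x

lemma blk_nonneg (t x : ℝ) : 0 ≤ blk t x := indicator_nonneg (fun _ _ => zero_le_one) _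

lemma blk_le_one (t x : ℝ) : blk t x ≤ 1 := by
  unfold blk
  by_cases h : x ∈ Ioo t (t + 1)
  · rw [indicator_of_mem h]
  · rw [indicator_of_notMem h]; exact zero_le_one

/-- the function attached to atoms of mass `C i` at `t i` -/
noncomputable def smear (C t : ℕ → ℝ) (x : ℝ) : ℝ := ∑' i, C i * blk (t i) x

section smear

variable {C t : ℕ → ℝ} {w p : ℝ → ℝ}

lemma block_eq (p : ℝ → ℝ) (c t : ℝ) :
    (fun y => p y * (c * blk t y)) = (Ioo t (t + 1)).indicator (fun y => c * p y) := by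
  funext y
  unfold blk
  by_cases h : y ∈ Ioo t (t + 1)
  · rw [indicator_of_mem h, indicator_of_mem h]; ring
  · rw [indicator_of_notMem h, indicator_of_notMem h]; ring

lemma shift_integral (g : ℝ → ℝ) (t : ℝ) :
    ∫ y in Ioo t (t + 1), g y = ∫ u in Ioo (0 : ℝ) 1, g (u + t) := by
  have h1 := (measurePreserving_add_right (volume : Measure ℝ) t).setIntegral_preimage_emb
    (measurableEmbedding_addRight t) g (Ioo t (t + 1))
  rw [← h1]
  congr 1
  ext u
  simp [Ioo, add_comm]

/-- each block is integrable, with integral bounded by `C w(t)` -/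
lemma block_integrable {c t : ℝ} (hc : 0 ≤ c) (ht : 0 ≤ t) (hwa : AntitoneOn w (Ici 0))
    (hp : AEStronglyMeasurable p (volume.restrict (Ioi 0)))
    (hpw : ∀ y, 0 ≤ y → |p y| ≤ w y) :
    Integrable (fun y => p y * (c * blk t y)) (volume.restrict (Ioi 0)) ∧
    ∫ y in Ioi (0 : ℝ), ‖p y * (c * blk t y)‖ ≤ c * w t ∧
    ∫ y in Ioi (0 : ℝ), p y * (c * blk t y) = ∫ u in Ioo (0 : ℝ) 1, c * p (u + t) := by
  have hsub : Ioo t (t + 1) ⊆ Ioi 0 := fun y hy => lt_of_le_of_lt ht hy.1
  have hmeas : MeasurableSet (Ioo t (t + 1)) := measurableSet_Ioo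
  have hrestr : (volume.restrict (Ioi (0 : ℝ))).restrict (Ioo t (t + 1)) =
      volume.restrict (Ioo t (t + 1)) := by
    rw [Measure.restrict_restrict hmeas, inter_eq_self_of_subset_left hsub]
  have hint : IntegrableOn (fun y => c * p y) (Ioo t (t + 1)) := by
    refine ⟨(hp.mono_measure (Measure.restrict_mono hsub le_rfl)).const_mul c,
      .restrict_of_bounded (C := c * w t) (by simp) ?_⟩
    · rw [ae_restrict_iff' hmeas]
      refine Eventually.of_forall (fun y hy => ?_)
      rw [norm_mul, Real.norm_eq_abs, Real.norm_eq_abs, abs_of_nonneg hc]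
      have hy0 : 0 ≤ y := (hsub hy).le
      exact mul_le_mul_of_nonneg_left ((hpw y hy0).trans (hwa ht hy0 hy.1.le)) hc
  refine ⟨?_, ?_, ?_⟩
  · rw [block_eq, integrable_indicator_iff hmeas]
    unfold IntegrableOn at hint ⊢
    rw [hrestr]; exact hint
  · have h1 : (fun y => ‖p y * (c * blk t y)‖) =
        (Ioo t (t + 1)).indicator (fun y => ‖c * p y‖) := by
      funext y
      rw [← norm_indicator_eq_indicator_norm]
      exact congrArg norm (congrFun (block_eq p c t) y)
    rw [h1, integral_indicator hmeas, hrestr]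
    have h2 : ∫ y in Ioo t (t + 1), ‖c * p y‖ ≤ ∫ y in Ioo t (t + 1), c * w t := by
      refine setIntegral_mono_on hint.norm (integrableOn_const (by simp)) hmeas (fun y hy => ?_)
      rw [norm_mul, Real.norm_eq_abs, Real.norm_eq_abs, abs_of_nonneg hc]
      have hy0 : 0 ≤ y := (hsub hy).le
      exact mul_le_mul_of_nonneg_left ((hpw y hy0).trans (hwa ht hy0 hy.1.le)) hc
    refine h2.trans ?_
    rw [setIntegral_const]
    simp
  · rw [block_eq, integral_indicator hmeas, hrestr]
    exact shift_integral (fun y => c * p y) t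

lemma smear_mul (p : ℝ → ℝ) (y : ℝ) : p y * smear C t y = ∑' i, p y * (C i * blk (t i) y) := by
  unfold smear
  rw [tsum_mul_left]

theorem smear_integrable (hC : ∀ i, 0 ≤ C i) (ht : ∀ i, 0 ≤ t i) (hwa : AntitoneOn w (Ici 0))
    (hs : Summable fun i => C i * w (t i))
    (hp : AEStronglyMeasurable p (volume.restrict (Ioi 0)))
    (hpw : ∀ y, 0 ≤ y → |p y| ≤ w y) :
    Integrable (fun y => p y * smear C t y) (volume.restrict (Ioi 0)) := by
  simp_rw [smear_mul]
  refine integrable_tsum' (fun i => (block_integrable (hC i) (ht i) hwa hp hpw).1) ?_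
  exact Summable.of_nonneg_of_le (fun i => integral_nonneg (fun _ => norm_nonneg _))
    (fun i => (block_integrable (hC i) (ht i) hwa hp hpw).2.1) hs

theorem smear_integral (hC : ∀ i, 0 ≤ C i) (ht : ∀ i, 0 ≤ t i) (hwa : AntitoneOn w (Ici 0))
    (hs : Summable fun i => C i * w (t i))
    (hp : Measurable p) (hpw : ∀ y, 0 ≤ y → |p y| ≤ w y) :
    Integrable (fun u => ∑' i, C i * p (u + t i)) (volume.restrict (Ioo (0 : ℝ) 1)) ∧
    ∫ y in Ioi (0 : ℝ), p y * smear C t y =
      ∫ u in Ioo (0 : ℝ) 1, ∑' i, C i * p (u + t i) := by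
  have hb := fun i => block_integrable (hC i) (ht i) hwa hp.aestronglyMeasurable hpw
  have hs1 : Summable fun i => ∫ y in Ioi (0 : ℝ), ‖p y * (C i * blk (t i) y)‖ :=
    Summable.of_nonneg_of_le (fun i => integral_nonneg (fun _ => norm_nonneg _))
      (fun i => (hb i).2.1) hs
  have h1 := integral_tsum_of_summable_integral_norm (fun i => (hb i).1) hs1
  have hb2 : ∀ i, Integrable (fun u => C i * p (u + t i)) (volume.restrict (Ioo (0 : ℝ) 1)) := by
    intro i
    refine Measure.integrableOn_of_bounded (M := C i * w (t i)) (by simp) ?_ ?_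
    · exact ((hp.comp (measurable_id.add_const _)).const_mul _).aestronglyMeasurable
    · rw [ae_restrict_iff' measurableSet_Ioo]
      refine Eventually.of_forall (fun y hy => ?_)
      rw [norm_mul, Real.norm_eq_abs, Real.norm_eq_abs, abs_of_nonneg (hC i)]
      have hy0 : 0 ≤ y + t i := add_nonneg hy.1.le (ht i)
      exact mul_le_mul_of_nonneg_left ((hpw _ hy0).trans (hwa (ht i) hy0 (by linarith [hy.1])))
        (hC i)
  have hs2 : Summable fun i => ∫ u in Ioo (0 : ℝ) 1, ‖C i * p (u + t i)‖ := by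
    refine Summable.of_nonneg_of_le (fun i => integral_nonneg (fun _ => norm_nonneg _))
      (fun i => ?_) hs
    have h2 : ∫ u in Ioo (0 : ℝ) 1, ‖C i * p (u + t i)‖ ≤
        ∫ u in Ioo (0 : ℝ) 1, C i * w (t i) := by
      refine setIntegral_mono_on (hb2 i).norm (integrableOn_const (by simp)) measurableSet_Ioo
        (fun y hy => ?_)
      rw [norm_mul, Real.norm_eq_abs, Real.norm_eq_abs, abs_of_nonneg (hC i)]
      have hy0 : 0 ≤ y + t i := add_nonneg hy.1.le (ht i)
      exact mul_le_mul_of_nonneg_left ((hpw _ hy0).trans (hwa (ht i) hy0 (by linarith [hy.1])))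
        (hC i)
    refine h2.trans ?_
    rw [setIntegral_const]
    simp
  have h2 := integral_tsum_of_summable_integral_norm hb2 hs2
  refine ⟨integrable_tsum' hb2 hs2, ?_⟩
  simp_rw [smear_mul]
  rw [← h1, ← h2]
  exact tsum_congr (fun i => (hb i).2.2)

end smear

lemma summable_c_blk (x : ℝ) : Summable fun k => c k * blk (h k) x := by
  refine Summable.of_nonneg_of_le (fun k => mul_nonneg (c_pos k).le (blk_nonneg _ _))
    (fun k => ?_) summable_c
  have := c_pos k
  have h1 := blk_le_one (h k) x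
  nlinarith

lemma smear_c_pos {x : ℝ} (hx : 0 < x) (hx1 : x < 1) : 0 < smear c h x := by
  obtain ⟨k, hk⟩ : ∃ k : ℕ, h k < x := by
    obtain ⟨k, hk⟩ := exists_pow_lt_of_lt_one hx (by norm_num : (1 / 2 : ℝ) < 1)
    refine ⟨k, lt_of_le_of_lt ?_ hk⟩
    unfold h
    exact pow_le_pow_of_le_one (by norm_num) (by norm_num) (by omega)
  have hb : blk (h k) x = 1 := by
    unfold blk
    rw [indicator_of_mem]
    exact ⟨hk, by linarith [h_pos k]⟩
  have h1 : c k * blk (h k) x ≤ smear c h x :=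
    (summable_c_blk x).le_tsum k (fun j _ => mul_nonneg (c_pos j).le (blk_nonneg _ _))
  rw [hb, mul_one] at h1
  exact (c_pos k).trans_le h1

lemma exists_cell {x : ℝ} (hx : 1 ≤ x) : ∃ K, (nn K : ℝ) ≤ x ∧ x < (nn (K + 1) : ℝ) := by
  classical
  have hex : ∃ K, x < (nn K : ℝ) := by
    obtain ⟨K, hK⟩ := exists_nat_gt x
    exact ⟨K, hK.trans (by exact_mod_cast lt_nn K)⟩
  have h1 := Nat.find_spec hex
  rcases Nat.eq_zero_or_pos (Nat.find hex) with h0 | h0
  · rw [h0] at h1
    simp only [nn, Nat.cast_one] at h1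
    linarith
  · obtain ⟨K, hK⟩ := Nat.exists_eq_succ_of_ne_zero h0.ne'
    refine ⟨K, ?_, ?_⟩
    · have := Nat.find_min hex (m := K) (by omega)
      exact not_lt.1 this
    · rw [hK] at h1; exact h1

theorem data (ρ : ℝ → ℝ) (hρ : Monotone ρ) : ∃ w φ F : ℝ → ℝ,
    (∀ x, 0 < w x) ∧ (∀ x, 0 ≤ x → w x ≤ 1) ∧ AntitoneOn w (Ici 0) ∧
    (∀ x, 1 ≤ x → w x ≤ Real.exp (-ρ x)) ∧
    Tendsto (fun x : ℝ => Real.log (w x) / x) atTop atBot ∧
    (∀ x y, 0 ≤ x → 0 ≤ y → w (x + y) ≤ w x * w y) ∧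
    IntegrableOn (fun x => w x * F x) (Ioi 0) ∧
    (∀ x, 0 ≤ F x) ∧ (∀ x, 0 < x → x < 1 → 0 < F x) ∧
    Measurable φ ∧ (∀ x, 0 ≤ x → |φ x| ≤ w x) ∧ (∀ x, 0 ≤ x → x < 1 → φ x = 1) ∧
    ∀ a, 0 ≤ a → IntegrableOn (fun y => φ (y + a) * F y) (Ioi 0) ∧
      ∫ y in Ioi (0 : ℝ), φ (y + a) * F y = 0 := by
  obtain ⟨W, φ, hW, hφm, hgrowB, hgrow, hφ1, hφb, hφ0⟩ :=
    construction (fun K => ρ (nn (K + 1) : ℝ))
  set w : ℝ → ℝ := fun x => Real.exp (-W x) with hw
  set m : ℕ → ℝ := fun j => eps j * Real.exp (W (nn j : ℝ)) with hm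
  set t : ℕ → ℝ := fun j => (nn j : ℝ) with ht
  have hwa : AntitoneOn w (Ici 0) := by
    intro x hx y _ hxy
    simp only [hw]
    exact Real.exp_le_exp.2 (neg_le_neg (hW.mono hx hxy))
  have hw1 : ∀ x, 0 ≤ x → w x ≤ 1 := by
    intro x hx
    simp only [hw]
    rw [Real.exp_le_one_iff]
    linarith [hW.nn x hx]
  have hm0 : ∀ j, 0 ≤ m j := fun j => by
    have := eps_pos j
    simp only [hm]; positivity
  have ht0 : ∀ j, 0 ≤ t j := fun j => by simp only [ht]; positivity
  have hc0 : ∀ j, 0 ≤ c j := fun j => (c_pos j).le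
  have hh0 : ∀ j, 0 ≤ h j := fun j => (h_pos j).le
  have hsc : Summable fun k => c k * w (h k) := by
    refine Summable.of_nonneg_of_le (fun k => mul_nonneg (hc0 k) (Real.exp_pos _).le)
      (fun k => ?_) summable_c
    have h1 := hw1 (h k) (hh0 k)
    have := hc0 k
    nlinarith
  have hsm : Summable fun j => m j * w (t j) := by
    refine summable_eps.congr (fun j => ?_)
    simp only [hm, hw, ht]
    rw [mul_assoc, ← Real.exp_add]
    simp
  have hF2 : ∀ x, 0 ≤ smear m t x := fun x =>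
    tsum_nonneg (fun i => mul_nonneg (hm0 i) (blk_nonneg _ _))
  have hF1 : ∀ x, 0 ≤ smear c h x := fun x =>
    tsum_nonneg (fun i => mul_nonneg (hc0 i) (blk_nonneg _ _))
  refine ⟨w, φ, fun x => smear c h x + smear m t x, fun x => Real.exp_pos _, hw1, hwa, ?_, ?_, ?_,
    ?_, fun x => add_nonneg (hF1 x) (hF2 x), ?_, hφm, hφb, hφ1, ?_⟩
  · intro x hx
    obtain ⟨K, hK1, hK2⟩ := exists_cell hx
    simp only [hw]
    refine Real.exp_le_exp.2 (neg_le_neg ?_)
    exact (hρ hK2.le).trans (hgrowB K x hK1)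
  · rw [tendsto_atBot]
    intro b
    obtain ⟨K, hK⟩ := exists_nat_ge (-b)
    filter_upwards [eventually_ge_atTop (nn K : ℝ)] with x hx
    have hx0 : 0 < x := lt_of_lt_of_le (by exact_mod_cast nn_pos K) hx
    simp only [hw]
    rw [Real.log_exp, div_le_iff₀ hx0]
    have h1 := hgrow K x hx
    nlinarith
  · intro x y hx hy
    simp only [hw]
    rw [← Real.exp_add]
    exact Real.exp_le_exp.2 (by linarith [hW.sa x y hx hy])
  · have hwm : AEStronglyMeasurable w (volume.restrict (Ioi 0)) :=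
      (aemeasurable_restrict_of_antitoneOn measurableSet_Ioi
        (hwa.mono Ioi_subset_Ici_self)).aestronglyMeasurable
    have hww : ∀ y, 0 ≤ y → |w y| ≤ w y := fun y _ => (abs_of_pos (Real.exp_pos _)).le
    have h1 := smear_integrable hc0 hh0 hwa hsc hwm hww
    have h2 := smear_integrable hm0 ht0 hwa hsm hwm hww
    refine (h1.add h2).congr (Eventually.of_forall (fun y => ?_))
    simp only [Pi.add_apply]
    ring
  · intro x hx hx1
    have h1 := smear_c_pos hx hx1
    have h2 := hF2 x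
    linarith
  · intro a ha
    have hpm : Measurable fun y => φ (y + a) := hφm.comp (measurable_id.add_const _)
    have hpw : ∀ y, 0 ≤ y → |φ (y + a)| ≤ w y := fun y hy =>
      (hφb _ (by linarith)).trans (hwa hy (by exact add_nonneg hy ha) (by linarith))
    have h1 := smear_integrable hc0 hh0 hwa hsc hpm.aestronglyMeasurable hpw
    have h2 := smear_integrable hm0 ht0 hwa hsm hpm.aestronglyMeasurable hpw
    have h3 := smear_integral hc0 hh0 hwa hsc hpm hpw
    have h4 := smear_integral hm0 ht0 hwa hsm hpm hpw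
    refine ⟨(h1.add h2).congr (Eventually.of_forall (fun y => ?_)), ?_⟩
    · simp only [Pi.add_apply]
      ring
    · have h5 : ∫ y in Ioi (0 : ℝ), φ (y + a) * (smear c h y + smear m t y) =
          (∫ y in Ioi (0 : ℝ), φ (y + a) * smear c h y) +
          ∫ y in Ioi (0 : ℝ), φ (y + a) * smear m t y := by
        rw [← integral_add h1 h2]
        exact integral_congr_ae (Eventually.of_forall (fun y => by simp only []; ring))
      rw [h5, h3.2, h4.2, ← integral_add h3.1 h4.1]
      have h6 : ∫ u in Ioo (0 : ℝ) 1, ((∑' i, c i * φ (u + h i + a)) +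
          ∑' i, m i * φ (u + t i + a)) = ∫ u in Ioo (0 : ℝ) 1, (0 : ℝ) := by
        refine setIntegral_congr_fun measurableSet_Ioo (fun u hu => ?_)
        have h7 := hφ0 (u + a) (by linarith [hu.1])
        simp only [hm, ht]
        rw [← h7]
        congr 1
        · exact tsum_congr (fun i => by rw [add_right_comm])
        · exact tsum_congr (fun i => by rw [add_right_comm])
      rw [h6]
      simp

end Pool.Agent.Pab2f70
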