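import Mathlib

/-!
# A functional annihilating the translates: the translates do not span a dense subspace
-/

set_option autoImplicit false

open MeasureTheory

namespace Pool.Agent.Pab2f70

/-- Pairing of the functional with a translate. -/
lemma pair_translate {φ F : ℝ → ℝ} {a : ℝ} (ha : 0 ≤ a)
    (h1 : IntegrableOn (fun y => φ (y + a) * F y) (Set.Ioi 0))
    (h2 : ∫ y in Set.Ioi (0 : ℝ), φ (y + a) * F y = 0) :
    IntegrableOn (fun x : ℝ => (φ x : ℂ) *
      Set.indicator (Set.Ioi a) (fun t : ℝ => (F (t - a) : ℂ)) x) (Set.Ioi 0) ∧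
    ∫ x in Set.Ioi (0 : ℝ), (φ x : ℂ) *
      Set.indicator (Set.Ioi a) (fun t : ℝ => (F (t - a) : ℂ)) x = 0 := by
  have hsub : Set.Ioi a ⊆ Set.Ioi 0 := Set.Ioi_subset_Ioi ha
  have hrestr : (volume.restrict (Set.Ioi (0 : ℝ))).restrict (Set.Ioi a) =
      volume.restrict (Set.Ioi a) := by
    rw [Measure.restrict_restrict measurableSet_Ioi, Set.inter_eq_self_of_subset_left hsub]
  have heq : (fun x : ℝ => (φ x : ℂ) *
      Set.indicator (Set.Ioi a) (fun t : ℝ => (F (t - a) : ℂ)) x) =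
      Set.indicator (Set.Ioi a) (fun t : ℝ => (φ t : ℂ) * (F (t - a) : ℂ)) := by
    funext x
    by_cases hx : x ∈ Set.Ioi a
    · rw [Set.indicator_of_mem hx, Set.indicator_of_mem hx]
    · rw [Set.indicator_of_notMem hx, Set.indicator_of_notMem hx, mul_zero]
  have hpre : (fun y : ℝ => y + a) ⁻¹' (Set.Ioi a) = Set.Ioi 0 := by
    ext y; simp
  have h3 : IntegrableOn (fun y : ℝ => ((φ (y + a) * F y : ℝ) : ℂ)) (Set.Ioi 0) := h1.ofReal
  have hcomp : ((fun t : ℝ => (φ t : ℂ) * (F (t - a) : ℂ)) ∘ fun y : ℝ => y + a) =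
      fun y : ℝ => ((φ (y + a) * F y : ℝ) : ℂ) := by
    funext y
    simp [Function.comp]
  rw [heq]
  constructor
  · unfold IntegrableOn
    rw [integrable_indicator_iff measurableSet_Ioi]
    unfold IntegrableOn
    rw [hrestr]
    have := ((measurePreserving_add_right (volume : Measure ℝ) a).integrableOn_comp_preimage
      (measurableEmbedding_addRight a) (f := fun t : ℝ => (φ t : ℂ) * (F (t - a) : ℂ))
      (s := Set.Ioi a)).1
    refine this ?_
    rw [hpre, hcomp]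
    exact h3
  · rw [integral_indicator measurableSet_Ioi, hrestr]
    rw [← (measurePreserving_add_right (volume : Measure ℝ) a).setIntegral_preimage_emb
      (measurableEmbedding_addRight a) (fun t : ℝ => (φ t : ℂ) * (F (t - a) : ℂ)) (Set.Ioi a), hpre]
    have h4 : ∫ y in Set.Ioi (0 : ℝ), (φ (y + a) : ℂ) * (F (y + a - a) : ℂ) =
        ∫ y in Set.Ioi (0 : ℝ), ((φ (y + a) * F y : ℝ) : ℂ) :=
      integral_congr_ae (Filter.Eventually.of_forall (fun y => congrFun hcomp y))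
    rw [h4, integral_complex_ofReal, h2, Complex.ofReal_zero]


/-- If a bounded functional kills all translates of `F` but not the indicator of `(0,1)`, the
translates do not span a dense subspace. -/
theorem not_dense {w φ F κ : ℝ → ℝ} {M : ℝ} (hw0 : ∀ x, 0 < w x) (hw1 : ∀ x, 0 ≤ x → w x ≤ 1)
    (hwa : AntitoneOn w (Set.Ici 0)) (hφw : ∀ x, 0 ≤ x → |φ x| ≤ w x)
    (hκ : Measurable κ) (hκM : ∀ x, 0 < x → x < 1 → |κ x| ≤ M)
    (hφ1 : ∀ x, 0 < x → x < 1 → φ x * κ x = 1)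
    (hφ : ∀ a, 0 ≤ a → IntegrableOn (fun y => φ (y + a) * F y) (Set.Ioi 0) ∧
      ∫ y in Set.Ioi (0 : ℝ), φ (y + a) * F y = 0) :
    ¬ (∀ g : ℝ → ℂ, IntegrableOn (fun x : ℝ => g x * (w x : ℂ)) (Set.Ioi (0:ℝ)) →
          ∀ ε : ℝ, 0 < ε → ∃ (n : ℕ) (a : Fin n → ℝ) (c : Fin n → ℂ), (∀ i, 0 < a i) ∧
            IntegrableOn
              (fun x : ℝ => ‖g x - ∑ i, c i * Set.indicator (Set.Ioi (a i))
                (fun t : ℝ => ((F (t - a i) : ℝ) : ℂ)) x‖ * w x) (Set.Ioi (0:ℝ)) ∧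
            ∫ x in Set.Ioi (0:ℝ),
              ‖g x - ∑ i, c i * Set.indicator (Set.Ioi (a i))
                (fun t : ℝ => ((F (t - a i) : ℝ) : ℂ)) x‖ * w x < ε) := by
  intro H
  -- the target function
  have hgind : (fun x : ℝ => Set.indicator (Set.Ioo (0 : ℝ) 1) (fun y => (κ y : ℂ)) x * (w x : ℂ)) =
      Set.indicator (Set.Ioo (0 : ℝ) 1) (fun x => (κ x : ℂ) * (w x : ℂ)) := by
    funext x
    by_cases hx : x ∈ Set.Ioo (0 : ℝ) 1
    · rw [Set.indicator_of_mem hx, Set.indicator_of_mem hx]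
    · rw [Set.indicator_of_notMem hx, Set.indicator_of_notMem hx, zero_mul]
  have hsub : Set.Ioo (0 : ℝ) 1 ⊆ Set.Ioi 0 := fun x hx => hx.1
  have hrestr : (volume.restrict (Set.Ioi (0 : ℝ))).restrict (Set.Ioo 0 1) =
      volume.restrict (Set.Ioo 0 1) := by
    rw [Measure.restrict_restrict measurableSet_Ioo, Set.inter_eq_self_of_subset_left hsub]
  have hgw : IntegrableOn (fun x : ℝ => Set.indicator (Set.Ioo (0 : ℝ) 1) (fun y => (κ y : ℂ)) x *
      (w x : ℂ)) (Set.Ioi (0 : ℝ)) := by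
    rw [hgind]
    unfold IntegrableOn
    rw [integrable_indicator_iff measurableSet_Ioo]
    unfold IntegrableOn
    rw [hrestr]
    have h1 : AEMeasurable w (volume.restrict (Set.Ioo (0 : ℝ) 1)) :=
      aemeasurable_restrict_of_antitoneOn measurableSet_Ioo (hwa.mono (fun x hx => hx.1.le))
    refine ⟨((Complex.measurable_ofReal.comp hκ).aemeasurable.mul
      (Complex.measurable_ofReal.comp_aemeasurable h1)).aestronglyMeasurable,
      .restrict_of_bounded (C := M) (by simp) ?_⟩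
    rw [ae_restrict_iff' measurableSet_Ioo]
    refine Filter.Eventually.of_forall (fun x hx => ?_)
    rw [norm_mul, Complex.norm_real, Complex.norm_real, Real.norm_eq_abs, Real.norm_eq_abs,
      abs_of_pos (hw0 x)]
    have h2 := hκM x hx.1 hx.2
    have h3 := hw1 x hx.1.le
    have h4 := hw0 x
    have h5 := abs_nonneg (κ x)
    nlinarith
  obtain ⟨n, a, c, ha, hint, hlt⟩ := H (Set.indicator (Set.Ioo (0 : ℝ) 1) (fun y => (κ y : ℂ))) hgw
    (1 / 2) (by norm_num)
  have hpt := fun i => pair_translate (ha i).le (hφ (a i) (ha i).le).1 (hφ (a i) (ha i).le).2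
  -- pairing with the target
  have hφg : (fun x : ℝ => (φ x : ℂ) * Set.indicator (Set.Ioo (0 : ℝ) 1) (fun y => (κ y : ℂ)) x) =
      Set.indicator (Set.Ioo (0 : ℝ) 1) (fun _ => (1 : ℂ)) := by
    funext x
    by_cases hx : x ∈ Set.Ioo (0 : ℝ) 1
    · rw [Set.indicator_of_mem hx, Set.indicator_of_mem hx]
      exact_mod_cast hφ1 x hx.1 hx.2
    · rw [Set.indicator_of_notMem hx, Set.indicator_of_notMem hx, mul_zero]
  have hgi : IntegrableOn (fun x : ℝ => (φ x : ℂ) *
      Set.indicator (Set.Ioo (0 : ℝ) 1) (fun y => (κ y : ℂ)) x) (Set.Ioi 0) := by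
    rw [hφg]
    unfold IntegrableOn
    rw [integrable_indicator_iff measurableSet_Ioo]
    unfold IntegrableOn
    rw [hrestr]
    exact integrableOn_const (by simp)
  have hg1 : ∫ x in Set.Ioi (0 : ℝ), (φ x : ℂ) *
      Set.indicator (Set.Ioo (0 : ℝ) 1) (fun y => (κ y : ℂ)) x = 1 := by
    rw [hφg, integral_indicator measurableSet_Ioo, hrestr, setIntegral_const]
    simp
  have hsumi : Integrable (fun x : ℝ => ∑ i, c i * ((φ x : ℂ) *
      Set.indicator (Set.Ioi (a i)) (fun t : ℝ => ((F (t - a i) : ℝ) : ℂ)) x))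
      (volume.restrict (Set.Ioi 0)) :=
    integrable_finsetSum _ (fun i _ => (hpt i).1.const_mul (c i))
  have hsum0 : ∫ x in Set.Ioi (0 : ℝ), ∑ i, c i * ((φ x : ℂ) *
      Set.indicator (Set.Ioi (a i)) (fun t : ℝ => ((F (t - a i) : ℝ) : ℂ)) x) = 0 := by
    rw [integral_finsetSum _ (fun i _ => (hpt i).1.const_mul (c i))]
    refine Finset.sum_eq_zero (fun i _ => ?_)
    rw [integral_const_mul, (hpt i).2, mul_zero]
  have hkey : ∫ x in Set.Ioi (0 : ℝ), (φ x : ℂ) *
      (Set.indicator (Set.Ioo (0 : ℝ) 1) (fun y => (κ y : ℂ)) x - ∑ i, c i *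
        Set.indicator (Set.Ioi (a i)) (fun t : ℝ => ((F (t - a i) : ℝ) : ℂ)) x) = 1 := by
    have h1 : ∀ x : ℝ, (φ x : ℂ) *
      (Set.indicator (Set.Ioo (0 : ℝ) 1) (fun y => (κ y : ℂ)) x - ∑ i, c i *
        Set.indicator (Set.Ioi (a i)) (fun t : ℝ => ((F (t - a i) : ℝ) : ℂ)) x) =
        (φ x : ℂ) * Set.indicator (Set.Ioo (0 : ℝ) 1) (fun y => (κ y : ℂ)) x -
        ∑ i, c i * ((φ x : ℂ) *
          Set.indicator (Set.Ioi (a i)) (fun t : ℝ => ((F (t - a i) : ℝ) : ℂ)) x) := by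
      intro x
      rw [mul_sub, Finset.mul_sum]
      congr 1
      exact Finset.sum_congr rfl (fun i _ => by ring)
    simp_rw [h1]
    rw [integral_sub hgi hsumi, hg1, hsum0, sub_zero]
  have hnorm : ‖∫ x in Set.Ioi (0 : ℝ), (φ x : ℂ) *
      (Set.indicator (Set.Ioo (0 : ℝ) 1) (fun y => (κ y : ℂ)) x - ∑ i, c i *
        Set.indicator (Set.Ioi (a i)) (fun t : ℝ => ((F (t - a i) : ℝ) : ℂ)) x)‖ ≤
      ∫ x in Set.Ioi (0 : ℝ), ‖Set.indicator (Set.Ioo (0 : ℝ) 1) (fun y => (κ y : ℂ)) x - ∑ i, c i *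
        Set.indicator (Set.Ioi (a i)) (fun t : ℝ => ((F (t - a i) : ℝ) : ℂ)) x‖ * w x := by
    refine norm_integral_le_of_norm_le hint ?_
    rw [ae_restrict_iff' measurableSet_Ioi]
    refine Filter.Eventually.of_forall (fun x hx => ?_)
    rw [norm_mul, mul_comm, Complex.norm_real, Real.norm_eq_abs]
    exact mul_le_mul_of_nonneg_left (hφw x (le_of_lt hx)) (norm_nonneg _)
  rw [hkey, norm_one] at hnorm
  linarith


end Pool.Agent.Pab2f70
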